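import Pool.Agent.R892.MS.Uso
set_option autoImplicit false

/-!
# Records with comparisons

Besides the visited vertices there are *comparisons* `(r, z)`: it has been shown that the value of the
vertex `r.w` is smaller than the value of the vertex `z`. Freezing coordinates wipes a comparison if it
makes `r.w` harmless. `ExtC Y a p e`: the records `p` and the comparisons `e` of a play in the face of
`a` with the free coordinates `Y` can be extended to an orientation with prescribed hypersinks, provided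
these wipe all records and comparisons.
-/

namespace Pool.Agent.J4.H61.LN

open Finset Pool.Agent.TH70.AR

variable {n : ℕ}

/-- closing a comparison -/
def clC (X : Finset (Fin n)) (b : Fin n → Bool) (c : Rec n × (Fin n → Bool)) :
    Rec n × (Fin n → Bool) := (cl X b c.1, c.2)

/-- the records `p` and the comparisons `e` can be extended to an orientation, for all admissible
hypersinks -/
def ExtC (Y : Finset (Fin n)) (a : Fin n → Bool) (p : List (Rec n))
    (e : List (Rec n × (Fin n → Bool))) : Prop :=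
  ∀ (v : Fin n → Bool) (𝓐 : Finset (Finset (Fin n))), (∀ A ∈ 𝓐, ∀ r ∈ p, Wipes A v r) →
    (∀ A ∈ 𝓐, ∀ c ∈ e, Wipes A v c.1) →
    ∃ f : (Fin n → Bool) → ℕ, AOF f ∧
      (∀ r ∈ p, ∀ i ∈ Y, (f r.w < f (flip r.w i) ↔ i ∈ r.S)) ∧ (∀ A ∈ 𝓐, Hyp f A v) ∧
      ∀ c ∈ e, (∀ i, i ∉ Y → c.1.w i = a i) → f c.1.w < f c.2

lemma extC_of_ext {Y : Finset (Fin n)} {p : List (Rec n)} (h : Ext Y p) (a : Fin n → Bool) :
    ExtC Y a p [] := by
  intro v 𝓐 h1 _
  obtain ⟨f, h2, h3, h4⟩ := h v 𝓐 h1
  exact ⟨f, h2, h3, h4, by simp⟩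

lemma extC_nil (Y : Finset (Fin n)) (a : Fin n → Bool) : ExtC Y a [] [] :=
  extC_of_ext (ext_nil Y) a

lemma bool_eq {x y z : Bool} (h : x ≠ y) (h' : z ≠ y) : x = z := by
  cases x <;> cases y <;> cases z <;> simp_all

/-- **Composition.** Records `p` and comparisons `e` in the coordinates `Y`, wiped by freezing `X` at `b`,
followed by records `q` and comparisons `e'` in the face where `X` is frozen, and new comparisons `ex`
of vertices which are not in this face. -/
lemma ext_comp {Y X : Finset (Fin n)} {a b : Fin n → Bool} {p q : List (Rec n)}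
    {e e' ex : List (Rec n × (Fin n → Bool))}
    (hp : ExtC Y a p e) (hwp : ∀ r ∈ p, Wipes X b r) (hwe : ∀ c ∈ e, Wipes X b c.1)
    (hq : ExtC (Y \ X) b q e') (hbY : ∀ i, i ∉ Y → b i = a i)
    (hqS : ∀ r ∈ q, r.S ⊆ Y \ X) (hqW : ∀ r ∈ q, r.W ⊆ Y \ X) (hqw : ∀ r ∈ q, On X b r.w)
    (heW : ∀ c ∈ e', c.1.W ⊆ Y \ X) (heh : ∀ c ∈ e', On X b c.2)
    (hxw : ∀ c ∈ ex, ¬ On X b c.1.w) (hxh : ∀ c ∈ ex, On X b c.2)
    (hxW : ∀ c ∈ ex, ∀ x ∈ c.1.W, x ∈ X → b x ≠ c.1.w x) :
    ExtC Y a (p.map (cl X b) ++ q) (e.map (clC X b) ++ (e' ++ ex)) := by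
  classical
  intro v 𝓐 h𝓐 h𝓐c
  -- the conflict set
  set Γ : Finset (Fin n) := X.filter fun x => v x ≠ b x with hΓ
  set v' : Fin n → Bool := fun x => if x ∈ X then b x else v x with hv'
  have hv'A : ∀ (A : Finset (Fin n)), ∀ x ∈ A \ Γ, v' x = v x := by
    intro A x hx
    simp only [hv']
    split_ifs with h
    · by_contra hne
      rw [mem_sdiff, hΓ, mem_filter] at hx
      exact hx.2 ⟨h, fun e => hne e.symm⟩
    · rfl
  -- a closed record is wiped by a direction without conflict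
  have hclW : ∀ (r : Rec n) (A : Finset (Fin n)), Wipes A v (cl X b r) →
      ∃ x ∈ A \ Γ, x ∈ r.W ∧ v x ≠ r.w x := by
    intro r A h
    obtain ⟨x, hx, h1, h2⟩ := h
    simp only [cl, mem_filter, not_and] at h1 h2
    have hxΓ : x ∉ Γ := by
      rw [hΓ, mem_filter]
      rintro ⟨h3, h4⟩
      exact h4 (bool_eq h2 (h1.2 h3))
    exact ⟨x, mem_sdiff.2 ⟨hx, hxΓ⟩, h1.1, h2⟩
  -- first part
  obtain ⟨f₁, hf₁, hf₁S, hf₁H, hf₁C⟩ := hp v' (insert X (𝓐.image fun A => A \ Γ)) (by
    intro A hA r hr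
    rw [mem_insert] at hA
    rcases hA with rfl | hA
    · obtain ⟨x, hx, h1, h2⟩ := hwp r hr
      exact ⟨x, hx, h1, by simpa [hv', hx] using h2⟩
    · rw [mem_image] at hA
      obtain ⟨A, hA, rfl⟩ := hA
      obtain ⟨x, hx, h1, h2⟩ := hclW r A (h𝓐 A hA (cl X b r) (by
        rw [List.mem_append]; left; exact List.mem_map_of_mem hr))
      refine ⟨x, hx, h1, ?_⟩
      rw [hv'A A x hx]
      exact h2) (by
    intro A hA c hc
    rw [mem_insert] at hA
    rcases hA with rfl | hA
    · obtain ⟨x, hx, h1, h2⟩ := hwe c hc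
      exact ⟨x, hx, h1, by simpa [hv', hx] using h2⟩
    · rw [mem_image] at hA
      obtain ⟨A, hA, rfl⟩ := hA
      obtain ⟨x, hx, h1, h2⟩ := hclW c.1 A (h𝓐c A hA (clC X b c) (by
        rw [List.mem_append]; left; exact List.mem_map_of_mem hc))
      refine ⟨x, hx, h1, ?_⟩
      rw [hv'A A x hx]
      exact h2)
  have hX : Hyp f₁ X b := by
    intro u hu i hi
    refine hf₁H X (mem_insert_self _ _) u (fun j hj => ?_) i hi
    simp [hv', hj, hu j hj]
  -- second part
  obtain ⟨f₂, hf₂, hf₂S, hf₂H, hf₂C⟩ := hq v (𝓐.image fun A => A \ X) (by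
    intro A hA r hr
    rw [mem_image] at hA
    obtain ⟨A, hA, rfl⟩ := hA
    obtain ⟨x, hx, h1, h2⟩ := h𝓐 A hA r (by rw [List.mem_append]; right; exact hr)
    exact ⟨x, mem_sdiff.2 ⟨hx, (mem_sdiff.1 (hqW r hr h1)).2⟩, h1, h2⟩) (by
    intro A hA c hc
    rw [mem_image] at hA
    obtain ⟨A, hA, rfl⟩ := hA
    obtain ⟨x, hx, h1, h2⟩ := h𝓐c A hA c (by
      rw [List.mem_append, List.mem_append]; right; left; exact hc)
    exact ⟨x, mem_sdiff.2 ⟨hx, (mem_sdiff.1 (heW c hc h1)).2⟩, h1, h2⟩)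
  set g := stack (On X b) f₂ f₁ with hg
  have hgA : AOF g := hf₁.stackOn hf₂ hX
  -- the hypersinks of `g`
  have hgH : ∀ A ∈ 𝓐, Hyp g (A \ Γ) v := by
    intro A hA u hu i hi
    rw [hg]
    by_cases huX : On X b u
    · by_cases hfX : On X b (flip u i)
      · rw [stack_lt_pos hfX huX]
        have hiX : i ∉ X := by
          intro h
          have h1 := hfX i h
          rw [flip_self, huX i h] at h1
          simp at h1
        refine hf₂H (A \ X) (mem_image_of_mem _ hA) u (fun j hj => ?_) i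
          (mem_sdiff.2 ⟨(mem_sdiff.1 hi).1, hiX⟩)
        refine hu j (mem_sdiff.2 ⟨(mem_sdiff.1 hj).1, fun h => (mem_sdiff.1 hj).2 ?_⟩)
        rw [hΓ, mem_filter] at h
        exact h.1
      · exact stack_lt hfX huX
    · by_cases hfX : On X b (flip u i)
      · exfalso
        have hiX : i ∈ X := by
          by_contra h
          exact huX (by simpa [TH70.AR.flip_flip] using hfX.flip h)
        have h1 := hfX i hiX
        rw [flip_self, hu i hi, ← hv'A A i hi] at h1
        simp [hv', hiX] at h1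
      · rw [stack_lt_neg hfX huX]
        refine hf₁H (A \ Γ) (mem_insert_of_mem (mem_image_of_mem _ hA)) u (fun j hj => ?_) i hi
        rw [hv'A A j hj]
        exact hu j hj
  -- the improving directions of `g`
  have hgS : ∀ r ∈ p.map (cl X b) ++ q, ∀ i ∈ Y, (g r.w < g (flip r.w i) ↔ i ∈ r.S) := by
    intro r hr i hi
    rw [List.mem_append, List.mem_map] at hr
    rcases hr with ⟨r, hr, rfl⟩ | hr
    · change g r.w < g (flip r.w i) ↔ i ∈ r.S
      have hrX : ¬ On X b r.w := by
        intro h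
        obtain ⟨x, hx, _, h2⟩ := hwp r hr
        exact h2 (h x hx).symm
      rw [← hf₁S r hr i hi, hg]
      by_cases hfX : On X b (flip r.w i)
      · refine iff_of_true (stack_lt hrX hfX) ?_
        have hiX : i ∈ X := by
          by_contra h
          exact hrX (by simpa [TH70.AR.flip_flip] using hfX.flip h)
        have := hX _ hfX i hiX
        rwa [TH70.AR.flip_flip] at this
      · rw [stack_lt_neg hrX hfX]
    · have hrX := hqw r hr
      rw [hg]
      by_cases hiX : i ∈ X
      · have hfX : ¬ On X b (flip r.w i) := by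
          intro h
          have h1 := h i hiX
          rw [flip_self, hrX i hiX] at h1
          simp at h1
        refine iff_of_false ?_ ?_
        · have := stack_lt (g := f₂) (f := f₁) hfX hrX
          omega
        · intro h
          exact (mem_sdiff.1 (hqS r hr h)).2 hiX
      · rw [stack_lt_pos hrX (hrX.flip hiX)]
        exact hf₂S r hr i (mem_sdiff.2 ⟨hi, hiX⟩)
  -- the comparisons of `g`
  have hgC : ∀ c ∈ e.map (clC X b) ++ (e' ++ ex), (∀ i, i ∉ Y → c.1.w i = a i) →
      g c.1.w < g c.2 := by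
    intro c hc hcY
    rw [List.mem_append, List.mem_map, List.mem_append] at hc
    rcases hc with ⟨c, hc, rfl⟩ | hc | hc
    · change g c.1.w < g c.2
      have hcX : ¬ On X b c.1.w := by
        intro h
        obtain ⟨x, hx, _, h2⟩ := hwe c hc
        exact h2 (h x hx).symm
      by_cases hhX : On X b c.2
      · exact stack_lt hcX hhX
      · rw [hg, stack_lt_neg hcX hhX]
        exact hf₁C c hc hcY
    · have hhX := heh c hc
      by_cases hcX : On X b c.1.w
      · rw [hg, stack_lt_pos hcX hhX]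
        refine hf₂C c hc fun i hi => ?_
        by_cases hiX : i ∈ X
        · exact hcX i hiX
        · have hiY : i ∉ Y := fun h => hi (mem_sdiff.2 ⟨h, hiX⟩)
          rw [hcY i hiY, hbY i hiY]
      · exact stack_lt hcX hhX
    · exact stack_lt (hxw c hc) (hxh c hc)
  -- make the hypersinks bigger
  set P : (Fin n → Bool) → Prop := fun u => ∃ A ∈ 𝓐, On (A \ Γ) v u with hP
  have hPA : AOF (stack P (fun u => agr u v) g) := by
    apply hgA.stackUniform
    · rintro u i ⟨A, hA, h⟩ hi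
      refine ⟨A, hA, fun j hj => ?_⟩
      by_cases hji : j = i
      · subst hji
        exact absurd (h j hj) hi
      · rw [flip_of_ne _ hji]
        exact h j hj
    · rintro u ⟨A, hA, h⟩
      exact ⟨A \ Γ, hgH A hA, h, fun z hz => ⟨A, hA, hz⟩⟩
  -- wiped vertices are not in `P`
  have hnP : ∀ u, (∀ A ∈ 𝓐, ∃ x ∈ A \ Γ, v x ≠ u x) → ¬ P u := by
    rintro u hu ⟨A, hA, h⟩
    obtain ⟨x, hx, h1⟩ := hu A hA
    exact h1 (h x hx).symm
  refine ⟨_, hPA, ?_, ?_, ?_⟩
  · intro r hr i hi
    have hrP : ¬ P r.w := by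
      apply hnP
      intro A hA
      obtain ⟨x, hx, h1, h2⟩ := h𝓐 A hA r hr
      rw [List.mem_append, List.mem_map] at hr
      rcases hr with ⟨r, hr, rfl⟩ | hr
      · obtain ⟨x, hx, _, h2⟩ := hclW r A ⟨x, hx, h1, h2⟩
        exact ⟨x, hx, h2⟩
      · refine ⟨x, mem_sdiff.2 ⟨hx, fun hxΓ => ?_⟩, h2⟩
        rw [hΓ, mem_filter] at hxΓ
        exact (mem_sdiff.1 (hqW r hr h1)).2 hxΓ.1
    rw [← hgS r hr i hi]
    by_cases hfP : P (flip r.w i)
    · refine iff_of_true (stack_lt hrP hfP) ?_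
      obtain ⟨A, hA, h⟩ := hfP
      have hiA : i ∈ A \ Γ := by
        by_contra h'
        exact hrP ⟨A, hA, by simpa [TH70.AR.flip_flip] using h.flip h'⟩
      have := hgH A hA _ h i hiA
      rwa [TH70.AR.flip_flip] at this
    · rw [stack_lt_neg hrP hfP]
  · intro A hA u hu i hi
    have hPu : P u := ⟨A, hA, fun j hj => hu j (mem_sdiff.1 hj).1⟩
    by_cases h : P (flip u i)
    · rw [stack_lt_pos h hPu]
      exact agr_flip_lt (hu i hi)
    · exact stack_lt h hPu
  · intro c hc hcY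
    have hcP : ¬ P c.1.w := by
      apply hnP
      intro A hA
      obtain ⟨x, hx, h1, h2⟩ := h𝓐c A hA c hc
      rw [List.mem_append, List.mem_map, List.mem_append] at hc
      rcases hc with ⟨c, hc, rfl⟩ | hc | hc
      · obtain ⟨x, hx, _, h2⟩ := hclW c.1 A ⟨x, hx, h1, h2⟩
        exact ⟨x, hx, h2⟩
      · refine ⟨x, mem_sdiff.2 ⟨hx, fun hxΓ => ?_⟩, h2⟩
        rw [hΓ, mem_filter] at hxΓ
        exact (mem_sdiff.1 (heW c hc h1)).2 hxΓ.1
      · refine ⟨x, mem_sdiff.2 ⟨hx, fun hxΓ => ?_⟩, h2⟩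
        rw [hΓ, mem_filter] at hxΓ
        exact hxΓ.2 (bool_eq h2 (hxW c hc x h1 hxΓ.1))
    by_cases hhP : P c.2
    · exact stack_lt hcP hhP
    · rw [stack_lt_neg hcP hhP]
      exact hgC c hc hcY

end Pool.Agent.J4.H61.LN
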