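import Pool.Agent.J4.H61.LN.Cmp
set_option autoImplicit false

/-!
# The candidates of a move and the choice of the next vertex
-/

namespace Pool.Agent.J4.H61.LN

open Finset Pool.Agent.TH70.AR Pool.Agent.TH70.AR.MS

variable {n : ℕ}

/-- The vertex `y` lies in one of the faces with the directions `D` which contain a vertex `sw x T`,
`T ∈ 𝓕`. -/
def Cand (x : Fin n → Bool) (𝓕 : Finset (Finset (Fin n))) (D : Finset (Fin n))
    (y : Fin n → Bool) : Prop :=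
  ∃ T ∈ 𝓕, ∀ i, i ∉ D → y i = sw x T i

lemma cand_sw {x : Fin n → Bool} {𝓕 : Finset (Finset (Fin n))} {D T : Finset (Fin n)}
    (hT : T ∈ 𝓕) : Cand x 𝓕 D (sw x T) := ⟨T, hT, fun _ _ => rfl⟩

/-- a small set separates some member of a family from all the others -/
lemma isolate (m : ℕ) : ∀ 𝓖 : Finset (Finset (Fin n)), 𝓖.Nonempty → 𝓖.card < 2 ^ (m + 1) →
    ∃ G ∈ 𝓖, ∃ F : Finset (Fin n), F.card ≤ m ∧ (∀ x ∈ F, ∃ G' ∈ 𝓖, x ∈ G') ∧
      ∀ G' ∈ 𝓖, G' ≠ G → ∃ x ∈ F, ¬ (x ∈ G' ↔ x ∈ G) := by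
  classical
  induction m with
  | zero =>
    intro 𝓖 hne hc
    obtain ⟨G, hG⟩ := hne
    refine ⟨G, hG, ∅, by simp, by simp, fun G' hG' h => ?_⟩
    exfalso
    have : 1 < 𝓖.card := one_lt_card.2 ⟨G', hG', G, hG, h⟩
    simp at hc
    omega
  | succ m ih =>
    intro 𝓖 hne hc
    by_cases h1 : 𝓖.card ≤ 1
    · obtain ⟨G, hG⟩ := hne
      refine ⟨G, hG, ∅, by simp, by simp, fun G' hG' h => ?_⟩
      exfalso
      have : 1 < 𝓖.card := one_lt_card.2 ⟨G', hG', G, hG, h⟩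
      omega
    -- a direction in which two members differ
    obtain ⟨G₁, hG₁, G₂, hG₂, hne'⟩ := one_lt_card.1 (not_le.1 h1)
    have hx : ∃ x, (∃ G ∈ 𝓖, x ∈ G) ∧ ∃ G ∈ 𝓖, x ∉ G := by
      by_contra hcon
      push Not at hcon
      apply hne'
      ext x
      exact ⟨fun h => hcon x ⟨G₁, hG₁, h⟩ G₂ hG₂, fun h => hcon x ⟨G₂, hG₂, h⟩ G₁ hG₁⟩
    obtain ⟨x, ⟨Gp, hGp, hxp⟩, Gm, hGm, hxm⟩ := hx
    have hcard : (𝓖.filter fun G => x ∈ G).card + (𝓖.filter fun G => x ∉ G).card = 𝓖.card :=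
      card_filter_add_card_filter_not _
    have h2 : 2 ^ (m + 1 + 1) = 2 * 2 ^ (m + 1) := by ring
    by_cases hp : (𝓖.filter fun G => x ∈ G).card < 2 ^ (m + 1)
    · obtain ⟨G, hG, F, hF, hF', hsep⟩ := ih _ ⟨Gp, mem_filter.2 ⟨hGp, hxp⟩⟩ hp
      rw [mem_filter] at hG
      refine ⟨G, hG.1, insert x F, (card_insert_le _ _).trans (by omega), ?_, ?_⟩
      · intro y hy
        rcases mem_insert.1 hy with rfl | hy
        · exact ⟨Gp, hGp, hxp⟩
        · obtain ⟨G', hG', h⟩ := hF' y hy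
          exact ⟨G', (mem_filter.1 hG').1, h⟩
      · intro G' hG' hne
        by_cases hxG' : x ∈ G'
        · obtain ⟨y, hy, h⟩ := hsep G' (mem_filter.2 ⟨hG', hxG'⟩) hne
          exact ⟨y, mem_insert_of_mem hy, h⟩
        · exact ⟨x, mem_insert_self _ _, fun h => hxG' (h.2 hG.2)⟩
    · have hm : (𝓖.filter fun G => x ∉ G).card < 2 ^ (m + 1) := by omega
      obtain ⟨G, hG, F, hF, hF', hsep⟩ := ih _ ⟨Gm, mem_filter.2 ⟨hGm, hxm⟩⟩ hm
      rw [mem_filter] at hG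
      refine ⟨G, hG.1, insert x F, (card_insert_le _ _).trans (by omega), ?_, ?_⟩
      · intro y hy
        rcases mem_insert.1 hy with rfl | hy
        · exact ⟨Gp, hGp, hxp⟩
        · obtain ⟨G', hG', h⟩ := hF' y hy
          exact ⟨G', (mem_filter.1 hG').1, h⟩
      · intro G' hG' hne
        by_cases hxG' : x ∈ G'
        · exact ⟨x, mem_insert_self _ _, fun h => hG.2 (h.1 hxG')⟩
        · obtain ⟨y, hy, h⟩ := hsep G' (mem_filter.2 ⟨hG', hxG'⟩) hne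
          exact ⟨y, mem_insert_of_mem hy, h⟩

/-- **The choice of the next vertex.** -/
lemma iso {r : ℕ} {S D : Finset (Fin n)} {𝓕 : Finset (Finset (Fin n))} (h𝓕 : 𝓕.Nonempty)
    (hc : 𝓕.card ≤ 2 ^ r) (hT : ∀ T ∈ 𝓕, T.Nonempty ∧ T ⊆ S) :
    ∃ T ∈ 𝓕, ∃ i ∈ T, ∃ F, F ⊆ S ∧ i ∈ F ∧ F.card ≤ r + 1 ∧
      ∀ T' ∈ 𝓕, (∀ x, x ∉ D → (x ∈ T' ↔ x ∈ T)) ∨ ∃ x ∈ F, x ∉ D ∧ ¬ (x ∈ T' ↔ x ∈ T) := by
  classical
  by_cases h : ∃ T ∈ 𝓕, ∃ i ∈ T, i ∉ D
  · obtain ⟨T₀, hT₀, i, hi, hiD⟩ := h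
    set 𝓖 : Finset (Finset (Fin n)) := (𝓕.filter fun T => i ∈ T).image fun T => T \ D with h𝓖
    have h1 : 𝓖.Nonempty := ⟨T₀ \ D, mem_image_of_mem _ (mem_filter.2 ⟨hT₀, hi⟩)⟩
    have h2 : 𝓖.card < 2 ^ (r + 1) := by
      have h3 : 𝓖.card ≤ 𝓕.card := card_image_le.trans (card_filter_le _ _)
      have h4 : 2 ^ r < 2 ^ (r + 1) := Nat.pow_lt_pow_right (by norm_num) (by omega)
      omega
    obtain ⟨G, hG, F, hF, hF', hsep⟩ := isolate r 𝓖 h1 h2
    obtain ⟨T, hT', rfl⟩ := mem_image.1 hG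
    rw [mem_filter] at hT'
    have hFS : ∀ x ∈ F, x ∈ S ∧ x ∉ D := by
      intro x hx
      obtain ⟨G', hG', hxG'⟩ := hF' x hx
      obtain ⟨T', hT'', rfl⟩ := mem_image.1 hG'
      rw [mem_sdiff] at hxG'
      exact ⟨(hT T' (mem_filter.1 hT'').1).2 hxG'.1, hxG'.2⟩
    refine ⟨T, hT'.1, i, hT'.2, insert i F, ?_, mem_insert_self _ _,
      (card_insert_le _ _).trans (by omega), fun T' h3 => ?_⟩
    · exact insert_subset ((hT T hT'.1).2 hT'.2) fun x hx => (hFS x hx).1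
    · by_cases hiT' : i ∈ T'
      · by_cases h4 : T' \ D = T \ D
        · left
          intro x hx
          have := Finset.ext_iff.1 h4 x
          simpa [mem_sdiff, hx] using this
        · right
          obtain ⟨x, hx, h5⟩ := hsep (T' \ D) (mem_image_of_mem _ (mem_filter.2 ⟨h3, hiT'⟩)) h4
          refine ⟨x, mem_insert_of_mem hx, (hFS x hx).2, fun h6 => h5 ?_⟩
          simp [mem_sdiff, h6]
      · exact Or.inr ⟨i, mem_insert_self _ _, hiD, fun h4 => hiT' (h4.2 hT'.2)⟩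
  · push Not at h
    obtain ⟨T, hT'⟩ := h𝓕
    obtain ⟨i, hi⟩ := (hT T hT').1
    refine ⟨T, hT', i, hi, {i}, by simpa using (hT T hT').2 hi, mem_singleton_self i, by simp,
      fun T' h3 => Or.inl fun x hx => ?_⟩
    exact iff_of_false (fun h4 => hx (h T' h3 x h4)) fun h4 => hx (h T hT' x h4)

lemma card_face (x : Fin n → Bool) (D : Finset (Fin n)) :
    (univ.filter fun y : Fin n → Bool => ∀ i, i ∉ D → y i = x i).card ≤ 2 ^ D.card := by
  classical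
  rw [← card_powerset]
  apply card_le_card_of_injOn (fun y => D.filter fun i => y i = true)
  · intro y _
    rw [mem_coe, mem_powerset]
    exact filter_subset _ _
  · intro y hy z hz h
    rw [mem_coe, mem_filter] at hy hz
    replace hy := hy.2
    replace hz := hz.2
    funext i
    by_cases hi : i ∈ D
    · have h1 := Finset.ext_iff.1 h i
      simp only [mem_filter, hi, true_and] at h1
      exact Bool.eq_iff_iff.2 h1
    · rw [hy i hi, hz i hi]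

open Classical in
lemma card_cand (x : Fin n → Bool) (𝓕 : Finset (Finset (Fin n))) (D : Finset (Fin n)) :
    (univ.filter fun y : Fin n → Bool => Cand x 𝓕 D y).card ≤ 𝓕.card * 2 ^ D.card := by
  have h : (univ.filter fun y : Fin n → Bool => Cand x 𝓕 D y) ⊆
      𝓕.biUnion fun T => univ.filter fun y : Fin n → Bool => ∀ i, i ∉ D → y i = sw x T i := by
    intro y hy
    rw [mem_filter] at hy
    obtain ⟨T, hT, h⟩ := hy.2
    exact mem_biUnion.2 ⟨T, hT, mem_filter.2 ⟨mem_univ y, h⟩⟩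
  refine (card_le_card h).trans (card_biUnion_le_card_mul _ _ _ fun T _ => ?_)
  convert card_face (sw x T) D

open Classical in
/-- The comparisons which are shown by a move from `a` to `b`, when `F` is frozen at `b`. -/
noncomputable def news (Y F : Finset (Fin n)) (a : Fin n → Bool) (𝓕 : Finset (Finset (Fin n)))
    (D : Finset (Fin n)) (b : Fin n → Bool) : List (Rec n × (Fin n → Bool)) :=
  (univ.filter fun y : Fin n → Bool => Cand a 𝓕 D y ∧ ¬ ∀ i, i ∉ D → y i = b i).toList.map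
    fun y => (⟨y, ∅, Y.filter fun x => ¬ (x ∈ F ∧ b x = y x)⟩, b)

lemma mem_news {Y F : Finset (Fin n)} {a : Fin n → Bool} {𝓕 : Finset (Finset (Fin n))}
    {D : Finset (Fin n)} {b : Fin n → Bool} {c : Rec n × (Fin n → Bool)} :
    c ∈ news Y F a 𝓕 D b ↔ ∃ y, Cand a 𝓕 D y ∧ (¬ ∀ i, i ∉ D → y i = b i) ∧
      c = (⟨y, ∅, Y.filter fun x => ¬ (x ∈ F ∧ b x = y x)⟩, b) := by
  classical
  simp only [news, List.mem_map, mem_toList, mem_filter, mem_univ, true_and]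
  constructor
  · rintro ⟨y, ⟨h1, h2⟩, rfl⟩
    exact ⟨y, h1, h2, rfl⟩
  · rintro ⟨y, h1, h2, rfl⟩
    exact ⟨y, ⟨h1, h2⟩, rfl⟩

lemma news_length {r : ℕ} {Y F : Finset (Fin n)} {a : Fin n → Bool}
    {𝓕 : Finset (Finset (Fin n))} {D : Finset (Fin n)} {b : Fin n → Bool}
    (h𝓕 : 𝓕.card ≤ 2 ^ r) (hD : D.card ≤ r) : (news Y F a 𝓕 D b).length ≤ 4 ^ r := by
  classical
  rw [news, List.length_map, length_toList]
  refine (card_le_card (t := univ.filter fun y : Fin n → Bool => Cand a 𝓕 D y) ?_).trans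
    ((card_cand a 𝓕 D).trans ?_)
  · intro y hy
    rw [mem_filter] at hy ⊢
    exact ⟨hy.1, hy.2.1⟩
  · calc 𝓕.card * 2 ^ D.card ≤ 2 ^ r * 2 ^ r :=
          Nat.mul_le_mul h𝓕 (Nat.pow_le_pow_right (by norm_num) hD)
      _ = 4 ^ r := by rw [← mul_pow]; norm_num

/-- a vertex among the candidates with another class than `b = sw a T` is separated from `b` by `F` -/
lemma sep {F : Finset (Fin n)} {a : Fin n → Bool} {𝓕 : Finset (Finset (Fin n))}
    {D T : Finset (Fin n)}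
    (hF : ∀ T' ∈ 𝓕, (∀ x, x ∉ D → (x ∈ T' ↔ x ∈ T)) ∨ ∃ x ∈ F, x ∉ D ∧ ¬ (x ∈ T' ↔ x ∈ T))
    {y : Fin n → Bool} (hy : Cand a 𝓕 D y) (hyb : ¬ ∀ i, i ∉ D → y i = sw a T i) :
    ∃ x ∈ F, sw a T x ≠ y x := by
  obtain ⟨T', hT', h⟩ := hy
  rcases hF T' hT' with h1 | ⟨x, hx, hxD, h1⟩
  · exfalso
    apply hyb
    intro i hi
    rw [h i hi]
    by_cases h2 : i ∈ T'
    · rw [sw_mem h2, sw_mem ((h1 i hi).1 h2)]
    · rw [sw_not_mem h2, sw_not_mem fun h3 => h2 ((h1 i hi).2 h3)]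
  · refine ⟨x, hx, ?_⟩
    rw [h x hxD]
    by_cases h2 : x ∈ T'
    · rw [sw_mem h2, sw_not_mem fun h3 => h1 ⟨fun _ => h3, fun _ => h2⟩]
      simp
    · rw [sw_not_mem h2, sw_mem (by by_contra h3; exact h1 ⟨fun h => absurd h h2, fun h => absurd h h3⟩)]
      simp

end Pool.Agent.J4.H61.LN
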