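import Pool.Agent.J4.H61.LN.Wipe
import Pool.Agent.R617.SR.Level
set_option autoImplicit false

/-!
# Epochs: doubling the length of the walk
-/

namespace Pool.Agent.J4.H61.LN

open Finset Pool.Agent.TH70.AR Pool.Agent.TH70.AR.MS Pool.Agent.R617.SR

variable {n : ℕ} {A : Past n → Finset (Finset (Fin n)) × Finset (Fin n)} {c : ℕ → ℕ}

/-- In every cube with more than `K` coordinates the adversary can make the rule walk along at least `N`
records, the records and comparisons have total weight at most `T`, and then wipe all of them by freezing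
at most `l` coordinates. -/
def Lw (A : Past n → Finset (Finset (Fin n)) × Finset (Fin n)) (c : ℕ → ℕ) (r s K l N : ℕ)
    (T : ℝ) : Prop :=
  ∀ (Y : Finset (Fin n)) (h : Past n) (a : Fin n → Bool) (O : Finset (Fin n)), O.card ≤ r →
    K < Y.card →
    ∃ (q : List (Rec n)) (b : Fin n → Bool) (O' X : Finset (Fin n))
      (e : List (Rec n × (Fin n → Bool))),
      Walk A c (Rel e) h a O q b O' ∧ ExtC Y a q e ∧ (∀ r ∈ q, r.S ⊆ Y) ∧ (∀ r ∈ q, r.W ⊆ Y) ∧
      (∀ z ∈ e, z.1.W ⊆ Y ∧ ∀ x, x ∉ Y → z.2 x = a x) ∧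
      X ⊆ Y ∧ X.card ≤ l ∧ (∀ r ∈ q, Wipes X b r) ∧ (∀ z ∈ e, Wipes X b z.1) ∧ N ≤ q.length ∧
      Psi s Y q + Psi s Y (e.map Prod.fst) ≤ T

theorem lw_mono {r s K l N K' l' N' : ℕ} {T T' : ℝ} (h : Lw A c r s K l N T) (hK : K ≤ K')
    (hl : l ≤ l') (hN : N' ≤ N) (hT : T ≤ T') : Lw A c r s K' l' N' T' := by
  intro Y p a O hO hY
  obtain ⟨q, b, O', X, e, h1, h2, h3, h4, h5, h6, h7, h8, h9, h10, h11⟩ := h Y p a O hO (by omega)
  exact ⟨q, b, O', X, e, h1, h2, h3, h4, h5, h6, h7.trans hl, h8, h9, hN.trans h10, h11.trans hT⟩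

theorem lw_zero {r s : ℕ} (hA : Valid A r) (hs : 2 * r + 1 ≤ s) :
    Lw A c r s r s 1 (2 + 2 * 4 ^ r) := by
  classical
  intro Y h a O hO hY
  set S := Y \ O with hS
  have hSc : Y.card ≤ S.card + O.card := card_le_card_sdiff_add_card (s := Y) (t := O)
  have hSne : S.Nonempty := by
    rw [← card_pos]
    omega
  have hSY : S ⊆ Y := sdiff_subset
  have hSO : Disjoint S O := sdiff_disjoint
  obtain ⟨T', hT', i, hiT, F, hFS, hiF, hFc, hcand, hnews⟩ :=
    one_move hA Y hSne h a (c h.length)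
  have hval := hA a (c h.length) S h hSne
  have hTS : T' ⊆ S := (hval.2.2.2 T' hT').2
  have hiS : i ∈ S := hTS hiT
  have hFY : F ⊆ Y := hFS.trans hSY
  set Dn := (A ((a, c h.length, S) :: h)).2 with hDn
  set 𝓕 := (A ((a, c h.length, S) :: h)).1 with h𝓕
  obtain ⟨b', hb'⟩ : ∃ b', b' = sw a T' := ⟨_, rfl⟩
  rw [← hb'] at hcand hnews
  have hb'Y : ∀ x, x ∉ Y → b' x = a x := fun x hx => by
    rw [hb']; exact sw_not_mem fun h => hx (hSY (hTS h))
  have hb'i : b' i ≠ a i := by rw [hb', sw_mem hiT]; simp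
  set R₀ : Rec n := cl F b' ⟨a, S, S⟩ with hR₀
  have hR₀W : ∀ x, x ∈ R₀.W ↔ x ∈ S ∧ ¬ (x ∈ F ∧ b' x = a x) := fun x => by
    rw [hR₀, cl, mem_filter]
  set N := news Y F a 𝓕 Dn b' with hN
  have hsR : (0 : ℝ) < s := by exact_mod_cast (by omega : 0 < s)
  refine ⟨[R₀], b', Dn, F, N, ?_, ?_, ?_, ?_, ?_, hFY, by omega, ?_, ?_, by simp, ?_⟩
  · refine ⟨rfl, hSne, hSO, T', hT', fun y hy => ?_, ?_⟩
    · rw [← hb']
      exact hcand y hy
    · rw [← hb']
      exact ⟨rfl, rfl⟩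
  · have := ext_comp (X := F) (b := b') (e := []) (e' := []) (ex := N) (q := [])
      (extC_of_ext (ext_single Y a S) a) (by
        intro r hr
        rw [List.mem_singleton] at hr
        subst hr
        exact ⟨i, hiF, hiS, hb'i⟩) (by simp) (extC_nil _ _) hb'Y (by simp) (by simp) (by simp)
        (by simp) (by simp) (by
        intro z hz hOn
        obtain ⟨x, hx, hne⟩ := (hnews z hz).2.2.2.1
        exact hne (hOn x hx).symm) (by
        intro z hz
        rw [(hnews z hz).1]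
        exact fun _ _ => rfl) (fun z hz => (hnews z hz).2.2.2.2.2)
    simpa using this
  · intro r hr
    rw [List.mem_singleton] at hr
    subst hr
    exact hSY
  · intro r hr
    rw [List.mem_singleton] at hr
    subst hr
    intro x hx
    exact hSY ((hR₀W x).1 hx).1
  · intro z hz
    refine ⟨(hnews z hz).2.1, fun x hx => ?_⟩
    rw [(hnews z hz).1]
    exact hb'Y x hx
  · intro r hr
    rw [List.mem_singleton] at hr
    subst hr
    exact ⟨i, hiF, (hR₀W i).2 ⟨hiS, fun h => hb'i h.2⟩, hb'i⟩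
  · intro z hz
    obtain ⟨x, hx, hne⟩ := (hnews z hz).2.2.2.1
    exact ⟨x, hx, (hnews z hz).2.2.2.2.1 x (hFY hx) hne, hne⟩
  · -- the weight
    rw [psi_cons, psi_nil, add_zero]
    have g1 : Y \ R₀.W ⊆ O ∪ F.erase i := by
      intro x hx
      rw [mem_sdiff, hR₀W] at hx
      rw [mem_union]
      by_cases hxS : x ∈ S
      · right
        have h1 : x ∈ F ∧ b' x = a x := by
          by_contra h'
          exact hx.2 ⟨hxS, h'⟩
        exact mem_erase.2 ⟨by rintro rfl; exact hb'i h1.2, h1.1⟩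
      · left
        by_contra h'
        exact hxS (mem_sdiff.2 ⟨hx.1, h'⟩)
    have g2 : (2 : ℝ) ^ (((Y \ R₀.W).card : ℝ) / s) ≤ 2 := by
      have h12 := card_le_card g1
      have h13 := card_union_le O (F.erase i)
      have h14 := card_erase_of_mem hiF
      have := two_rpow_le (s := s) (e := (Y \ R₀.W).card) (j := 1) (by omega) (by omega)
      simpa using this
    have g3 : Psi s Y (N.map Prod.fst) ≤ 4 ^ r * 2 := by
      have h1 : Psi s Y (N.map Prod.fst) ≤ (N.map Prod.fst).length * (2 : ℝ) ^ ((s : ℝ) / s) := by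
        apply psi_le_len
        intro x hx
        obtain ⟨z, hz, rfl⟩ := List.mem_map.1 hx
        have := (hnews z hz).2.2.1
        omega
      have h2 : ((N.map Prod.fst).length : ℝ) ≤ 4 ^ r := by
        rw [List.length_map]
        exact_mod_cast news_length hval.2.1 hval.2.2.1
      refine h1.trans ?_
      rw [div_self hsR.ne', Real.rpow_one]
      exact mul_le_mul_of_nonneg_right h2 (by norm_num)
    linarith

theorem map_clC {X : Finset (Fin n)} {b : Fin n → Bool} (e : List (Rec n × (Fin n → Bool))) :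
    (e.map (clC X b)).map Prod.fst = (e.map Prod.fst).map (cl X b) := by
  simp [clC, Function.comp_def]

theorem lw_succ {r : ℕ} (hA : Valid A r) {θ s K l N ρ : ℕ} {T : ℝ} (hs : 1 ≤ s) (hθ : 1 ≤ θ)
    (hρ : 2 * r + 1 ≤ ρ) (hls : l ≤ s)
    (hg : G θ (θ + 1) * ρ ≤ s) (hT : 2 * T ≤ (2 : ℝ) ^ (θ : ℝ)) (h : Lw A c r s K l N T)
    (hK : 2 * s * θ + s + 2 * l ≤ K + l) :
    Lw A c r s (K + l) s (2 * N)
      (6 * T + 8 * (HH θ (2 * T) (θ + 1) + G θ (θ + 1) * 4 ^ r)) := by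
  intro Y p a O hO hY
  obtain ⟨q₁, b₁, O₁, X₁, e₁, w₁, E₁, s₁, u₁, z₁, x₁, c₁, v₁, y₁, n₁, m₁⟩ :=
    h Y p a O hO (by omega)
  have hO₁ := walk_card hA w₁ hO
  have hY₁ : (Y \ X₁).card + X₁.card = Y.card := card_sdiff_add_card_eq_card x₁
  obtain ⟨q₂, b₂, O₂, X₂, e₂, w₂, E₂, s₂, u₂, z₂, x₂, c₂, v₂, y₂, n₂, m₂⟩ :=
    h (Y \ X₁) (pst c p q₁) b₁ O₁ hO₁ (by omega)
  have hO₂ := walk_card hA w₂ hO₁
  have hY₂ : ((Y \ X₁) \ X₂).card + X₂.card = (Y \ X₁).card := card_sdiff_add_card_eq_card x₂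
  have hT0 : 0 ≤ 2 * T := by
    have h1 := psi_nonneg s Y q₁
    have h2 := psi_nonneg s Y (e₁.map Prod.fst)
    linarith
  have hΨ : Psi s ((Y \ X₁) \ X₂) ((q₁ ++ q₂) ++ (e₁ ++ e₂).map Prod.fst) ≤ 2 * T := by
    rw [List.map_append, psi_append, psi_append, psi_append]
    have h1 := psi_mono (s := s) (sdiff_subset.trans sdiff_subset : (Y \ X₁) \ X₂ ⊆ Y) q₁
    have h2 := psi_mono (s := s) (sdiff_subset : (Y \ X₁) \ X₂ ⊆ Y \ X₁) q₂
    have h3 := psi_mono (s := s) (sdiff_subset.trans sdiff_subset : (Y \ X₁) \ X₂ ⊆ Y)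
      (e₁.map Prod.fst)
    have h4 := psi_mono (s := s) (sdiff_subset : (Y \ X₁) \ X₂ ⊆ Y \ X₁) (e₂.map Prod.fst)
    linarith
  obtain ⟨q₃, b₃, O₃, X₃, e₃, w₃, E₃, s₃, u₃, z₃, m₃, x₃, -, c₃, v₃, v₃', y₃⟩ :=
    wipe (c := c) hA hs hθ hρ hT0 hT (θ + 1) 0 ((Y \ X₁) \ X₂) ∅
      ((q₁ ++ q₂) ++ (e₁ ++ e₂).map Prod.fst)
      (pst c (pst c p q₁) q₂) b₂ O₂ hO₂ (empty_subset _) hΨ
      (by
        rw [pow_zero, pow_zero, mul_one, mul_one]
        have h1 : (((q₁ ++ q₂) ++ (e₁ ++ e₂).map Prod.fst).length : ℝ) ≤ (2 : ℝ) ^ θ := by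
          rw [← Real.rpow_natCast]
          exact (length_le_psi s _ _).trans (hΨ.trans hT)
        have h2 : ((q₁ ++ q₂) ++ (e₁ ++ e₂).map Prod.fst).length ≤ 2 ^ θ := by exact_mod_cast h1
        exact lt_of_le_of_lt h2 (Nat.pow_lt_pow_right (by norm_num) (by omega)))
      (by rw [card_empty, zero_mul, zero_add, zero_add]; omega)
  simp only [sdiff_empty, card_empty, zero_add, Nat.cast_zero, zero_mul] at s₃ u₃ c₃ m₃
  have f₁ := walk_fix hA w₁ s₁
  have f₂ := walk_fix hA w₂ s₂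
  have f₃ := walk_fix hA w₃ s₃
  -- the second and third parts
  have S₂₃ : ∀ r ∈ q₂.map (cl X₂ b₂) ++ q₃, r.S ⊆ Y \ X₁ := by
    intro r hr
    rcases List.mem_append.1 hr with hr | hr
    · obtain ⟨s, hs, rfl⟩ := List.mem_map.1 hr
      exact s₂ s hs
    · exact (s₃ r hr).trans sdiff_subset
  have W₂₃ : ∀ r ∈ q₂.map (cl X₂ b₂) ++ q₃, r.W ⊆ Y \ X₁ := by
    intro r hr
    rcases List.mem_append.1 hr with hr | hr
    · obtain ⟨s, hs, rfl⟩ := List.mem_map.1 hr
      exact (filter_subset _ _).trans (u₂ s hs)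
    · exact (u₃ r hr).trans sdiff_subset
  have hnX₁ : ∀ x, x ∈ X₁ → x ∉ Y \ X₁ := fun x hx h' => (mem_sdiff.1 h').2 hx
  have hnX₂ : ∀ x, x ∈ X₂ → x ∉ (Y \ X₁) \ X₂ := fun x hx h' => (mem_sdiff.1 h').2 hx
  have hnX₁' : ∀ x, x ∈ X₁ → x ∉ (Y \ X₁) \ X₂ := fun x hx h' =>
    (mem_sdiff.1 (mem_sdiff.1 h').1).2 hx
  have Z₂₃ : ∀ z ∈ e₂.map (clC X₂ b₂) ++ e₃, z.1.W ⊆ Y \ X₁ ∧
      ∀ x, x ∉ Y \ X₁ → z.2 x = b₁ x := by
    intro z hz
    rcases List.mem_append.1 hz with hz | hz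
    · obtain ⟨z', hz', rfl⟩ := List.mem_map.1 hz
      exact ⟨(filter_subset _ _).trans (z₂ z' hz').1, (z₂ z' hz').2⟩
    · refine ⟨(z₃ z hz).1.trans sdiff_subset, fun x hx => ?_⟩
      rw [(z₃ z hz).2 x fun h' => hx (mem_sdiff.1 h').1]
      exact f₂.1 x hx
  have E₂₃ : ExtC (Y \ X₁) b₁ (q₂.map (cl X₂ b₂) ++ q₃) (e₂.map (clC X₂ b₂) ++ e₃) := by
    have := ext_comp (ex := []) E₂ v₂ y₂ E₃ (fun x hx => f₂.1 x hx) s₃ (fun r hr => u₃ r hr)
      (fun r hr x hx => f₃.2 r hr x (hnX₂ x hx)) (fun z hz => (z₃ z hz).1)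
      (fun z hz x hx => (z₃ z hz).2 x (hnX₂ x hx)) (by simp) (by simp) (by simp)
    simpa using this
  have E : ExtC Y a (q₁.map (cl X₁ b₁) ++ (q₂.map (cl X₂ b₂) ++ q₃))
      (e₁.map (clC X₁ b₁) ++ (e₂.map (clC X₂ b₂) ++ e₃)) := by
    have := ext_comp (ex := []) E₁ v₁ y₁ E₂₃ (fun x hx => f₁.1 x hx) S₂₃ W₂₃
      (fun r hr x hx => by
        rcases List.mem_append.1 hr with hr | hr
        · obtain ⟨s, hs, rfl⟩ := List.mem_map.1 hr
          exact f₂.2 s hs x (hnX₁ x hx)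
        · rw [f₃.2 r hr x (hnX₁' x hx)]
          exact f₂.1 x (hnX₁ x hx)) (fun z hz => (Z₂₃ z hz).1)
      (fun z hz x hx => (Z₂₃ z hz).2 x (hnX₁ x hx)) (by simp) (by simp) (by simp)
    simpa using this
  have hX₃ : ∀ x ∈ X₃, x ∉ X₁ ∧ x ∉ X₂ := fun x hx =>
    ⟨(mem_sdiff.1 (mem_sdiff.1 (x₃ hx)).1).2, (mem_sdiff.1 (x₃ hx)).2⟩
  refine ⟨q₁.map (cl X₁ b₁) ++ (q₂.map (cl X₂ b₂) ++ q₃), b₃, O₃, X₃,
    e₁.map (clC X₁ b₁) ++ (e₂.map (clC X₂ b₂) ++ e₃), ?_, E, ?_, ?_, ?_,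
    x₃.trans (sdiff_subset.trans sdiff_subset), c₃.trans hg, ?_, ?_, ?_, ?_⟩
  · refine walk_append (walk_map (walk_mono w₁ fun u v h => rel_append_left u v
      (rel_map u v h))) ?_
    rw [TH70.AR.pst_map]
    refine walk_append (walk_map (walk_mono w₂ fun u v h => rel_append_right u v
      (rel_append_left u v (rel_map u v h)))) ?_
    rw [TH70.AR.pst_map]
    exact walk_mono w₃ fun u v h => rel_append_right u v (rel_append_right u v h)
  · intro r hr
    rcases List.mem_append.1 hr with hr | hr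
    · obtain ⟨s, hs, rfl⟩ := List.mem_map.1 hr
      exact s₁ s hs
    · exact (S₂₃ r hr).trans sdiff_subset
  · intro r hr
    rcases List.mem_append.1 hr with hr | hr
    · obtain ⟨s, hs, rfl⟩ := List.mem_map.1 hr
      exact (filter_subset _ _).trans (u₁ s hs)
    · exact (W₂₃ r hr).trans sdiff_subset
  · intro z hz
    rcases List.mem_append.1 hz with hz | hz
    · obtain ⟨z', hz', rfl⟩ := List.mem_map.1 hz
      exact ⟨(filter_subset _ _).trans (z₁ z' hz').1, (z₁ z' hz').2⟩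
    · refine ⟨(Z₂₃ z hz).1.trans sdiff_subset, fun x hx => ?_⟩
      rw [(Z₂₃ z hz).2 x fun h' => hx (mem_sdiff.1 h').1]
      exact f₁.1 x hx
  · intro r hr
    rcases List.mem_append.1 hr with hr | hr
    · obtain ⟨s, hs, rfl⟩ := List.mem_map.1 hr
      obtain ⟨x, hx, h1, h2⟩ := v₃ s (List.mem_append_left _ (List.mem_append_left _ hs))
      exact ⟨x, hx, mem_filter.2 ⟨h1, fun h' => (hX₃ x hx).1 h'.1⟩, h2⟩
    · rcases List.mem_append.1 hr with hr | hr
      · obtain ⟨s, hs, rfl⟩ := List.mem_map.1 hr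
        obtain ⟨x, hx, h1, h2⟩ := v₃ s (List.mem_append_left _ (List.mem_append_right _ hs))
        exact ⟨x, hx, mem_filter.2 ⟨h1, fun h' => (hX₃ x hx).2 h'.1⟩, h2⟩
      · exact v₃' r hr
  · intro z hz
    rcases List.mem_append.1 hz with hz | hz
    · obtain ⟨z', hz', rfl⟩ := List.mem_map.1 hz
      obtain ⟨x, hx, h1, h2⟩ := v₃ z'.1 (List.mem_append_right _ (List.mem_map.2
        ⟨z', List.mem_append_left _ hz', rfl⟩))
      exact ⟨x, hx, mem_filter.2 ⟨h1, fun h' => (hX₃ x hx).1 h'.1⟩, h2⟩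
    · rcases List.mem_append.1 hz with hz | hz
      · obtain ⟨z', hz', rfl⟩ := List.mem_map.1 hz
        obtain ⟨x, hx, h1, h2⟩ := v₃ z'.1 (List.mem_append_right _ (List.mem_map.2
          ⟨z', List.mem_append_right _ hz', rfl⟩))
        exact ⟨x, hx, mem_filter.2 ⟨h1, fun h' => (hX₃ x hx).2 h'.1⟩, h2⟩
      · exact y₃ z hz
  · simp only [List.length_append, List.length_map]
    omega
  · -- the weights
    rw [psi_append, psi_append, List.map_append, List.map_append, psi_append, psi_append,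
      map_clC, map_clC]
    have p₁ : ∀ M : List (Rec n), Psi s Y (M.map (cl X₁ b₁)) ≤ 2 * Psi s Y M := by
      intro M
      have h0 := psi_le_of (s := s) (e := l) (Y := Y) (Y' := Y) (cl X₁ b₁) M fun r hr => by
        have h1 : Y \ (cl X₁ b₁ r).W ⊆ (Y \ r.W) ∪ X₁ := by
          intro x hx
          rw [mem_sdiff] at hx
          rw [mem_union, mem_sdiff]
          by_cases hxX : x ∈ X₁
          · exact Or.inr hxX
          · exact Or.inl ⟨hx.1, fun hW => hx.2 (mem_filter.2 ⟨hW, fun h' => hxX h'.1⟩)⟩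
        have h2 := card_le_card h1
        have h3 := card_union_le (Y \ r.W) X₁
        omega
      have h1 := two_rpow_le (s := s) (e := l) (j := 1) hs (by omega)
      rw [pow_one] at h1
      exact h0.trans (mul_le_mul_of_nonneg_right h1 (psi_nonneg _ _ _))
    have h4 := two_rpow_le (s := s) (e := 2 * l) (j := 2) hs (by omega)
    have h5 : (2 : ℝ) ^ 2 = 4 := by norm_num
    rw [h5] at h4
    have p₂ : ∀ M : List (Rec n), Psi s Y (M.map (cl X₂ b₂)) ≤ 4 * Psi s (Y \ X₁) M := by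
      intro M
      have h0 := psi_le_of (s := s) (e := 2 * l) (Y := Y \ X₁) (Y' := Y) (cl X₂ b₂) M
        fun r hr => by
        have h1 : Y \ (cl X₂ b₂ r).W ⊆ ((Y \ X₁) \ r.W) ∪ (X₁ ∪ X₂) := by
          intro x hx
          rw [mem_sdiff] at hx
          rw [mem_union, mem_sdiff, mem_sdiff, mem_union]
          by_cases hxX : x ∈ X₁
          · exact Or.inr (Or.inl hxX)
          by_cases hxX₂ : x ∈ X₂
          · exact Or.inr (Or.inr hxX₂)
          · exact Or.inl ⟨⟨hx.1, hxX⟩,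
              fun hW => hx.2 (mem_filter.2 ⟨hW, fun h' => hxX₂ h'.1⟩)⟩
        have h2 := card_le_card h1
        have h3 := card_union_le ((Y \ X₁) \ r.W) (X₁ ∪ X₂)
        have h3' := card_union_le X₁ X₂
        omega
      exact h0.trans (mul_le_mul_of_nonneg_right h4 (psi_nonneg _ _ _))
    have p₃ : ∀ M : List (Rec n), Psi s Y M ≤ 4 * Psi s ((Y \ X₁) \ X₂) M := by
      intro M
      have h0 := psi_le_of (s := s) (e := 2 * l) (Y := (Y \ X₁) \ X₂) (Y' := Y) id M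
        fun r hr => by
        have h1 : Y \ r.W ⊆ (((Y \ X₁) \ X₂) \ r.W) ∪ (X₁ ∪ X₂) := by
          intro x hx
          rw [mem_sdiff] at hx
          rw [mem_union, mem_sdiff, mem_sdiff, mem_sdiff, mem_union]
          by_cases hxX : x ∈ X₁
          · exact Or.inr (Or.inl hxX)
          by_cases hxX₂ : x ∈ X₂
          · exact Or.inr (Or.inr hxX₂)
          · exact Or.inl ⟨⟨⟨hx.1, hxX⟩, hxX₂⟩, hx.2⟩
        have h2 := card_le_card h1
        have h3 := card_union_le (((Y \ X₁) \ X₂) \ r.W) (X₁ ∪ X₂)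
        have h3' := card_union_le X₁ X₂
        simp only [id]
        omega
      rw [List.map_id] at h0
      exact h0.trans (mul_le_mul_of_nonneg_right h4 (psi_nonneg _ _ _))
    have h6 := two_rpow_le (s := s) (e := G θ (θ + 1) * ρ) (j := 1) hs (by omega)
    rw [pow_one] at h6
    have hH := HH_nonneg θ hT0 (θ + 1)
    have h7 : Psi s ((Y \ X₁) \ X₂) q₃ + Psi s ((Y \ X₁) \ X₂) (e₃.map Prod.fst) ≤
        2 * (HH θ (2 * T) (θ + 1) + G θ (θ + 1) * 4 ^ r) :=
      m₃.trans (mul_le_mul_of_nonneg_right h6 (by positivity))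
    have a1 := p₁ q₁
    have a2 := p₁ (e₁.map Prod.fst)
    have a3 := p₂ q₂
    have a4 := p₂ (e₂.map Prod.fst)
    have a5 := p₃ q₃
    have a6 := p₃ (e₃.map Prod.fst)
    linarith

end Pool.Agent.J4.H61.LN
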