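import Pool.Agent.J4.H61.LN.Level
import Pool.Agent.R617.SR.Num
set_option autoImplicit false

/-!
# All levels, and the choice of the parameters
-/

namespace Pool.Agent.J4.H61.LN

open Finset Pool.Agent.TH70.AR Pool.Agent.TH70.AR.MS Pool.Agent.R617.SR

variable {n : ℕ} {A : Past n → Finset (Finset (Fin n)) × Finset (Fin n)} {c : ℕ → ℕ}

/-- all levels -/
theorem lw_all {r : ℕ} (hA : Valid A r) {θ k : ℕ} (hθ : 1 ≤ θ)
    (hk : 2 * ((2 + 2 * 4 ^ r) * (256 * θ + 134 + 4 * G θ (θ + 1)) ^ k) ≤ 2 ^ θ)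
    (j : ℕ) (hj : j ≤ k) :
    Lw A c r (G θ (θ + 1) * (2 * r + 1))
      (2 * (G θ (θ + 1) * (2 * r + 1)) * θ + (j + 2) * (G θ (θ + 1) * (2 * r + 1)))
      (G θ (θ + 1) * (2 * r + 1)) (2 ^ j)
      ((2 + 2 * 4 ^ r) * (256 * θ + 134 + 4 * G θ (θ + 1)) ^ j) := by
  have hG : 1 ≤ G θ (θ + 1) := by
    rw [G]
    omega
  obtain ⟨g, hg⟩ : ∃ g, g = G θ (θ + 1) := ⟨_, rfl⟩
  rw [← hg] at hG hk ⊢
  obtain ⟨s, hs⟩ : ∃ s, s = g * (2 * r + 1) := ⟨_, rfl⟩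
  have hs1 : 2 * r + 1 ≤ s := by
    rw [hs]
    exact Nat.le_mul_of_pos_left _ (by omega)
  rw [← hs]
  induction j with
  | zero =>
    refine lw_mono (lw_zero hA hs1) ?_ le_rfl (by norm_num) (by simp)
    have : 0 ≤ 2 * s * θ := Nat.zero_le _
    omega
  | succ j ih =>
    have hC : (2 : ℝ) * ((2 + 2 * 4 ^ r) * (256 * θ + 134 + 4 * g) ^ j) ≤ (2 : ℝ) ^ (θ : ℝ) := by
      rw [Real.rpow_natCast]
      have h1 : 2 * ((2 + 2 * 4 ^ r) * (256 * θ + 134 + 4 * g) ^ j) ≤ 2 ^ θ :=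
        (Nat.mul_le_mul_left _ (Nat.mul_le_mul_left _
          (Nat.pow_le_pow_right (by omega) (by omega)))).trans hk
      exact_mod_cast h1
    refine lw_mono (lw_succ hA (by omega) hθ le_rfl le_rfl (by rw [← hg, ← hs]) hC
      (ih (by omega)) ?_) ?_ le_rfl ?_ ?_
    · nlinarith
    · nlinarith
    · rw [pow_succ]; omega
    · obtain ⟨z, hz⟩ : ∃ z : ℝ, z = (2 + 2 * 4 ^ r) * (256 * (θ : ℝ) + 134 + 4 * g) ^ j :=
        ⟨_, rfl⟩
      have hz4 : 2 * (4 : ℝ) ^ r ≤ z := by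
        have h1 : (1 : ℝ) ≤ (256 * (θ : ℝ) + 134 + 4 * g) ^ j := by
          apply one_le_pow₀
          have h2 : (0 : ℝ) ≤ θ := Nat.cast_nonneg _
          have h3 : (0 : ℝ) ≤ g := Nat.cast_nonneg _
          linarith
        have h2 : (0 : ℝ) ≤ 4 ^ r := by positivity
        rw [hz]
        nlinarith
      have hz0 : 0 ≤ z := le_trans (by positivity) hz4
      rw [pow_succ, ← mul_assoc]
      rw [← hz] at hC ⊢
      have h1 := HH_le θ (T := 2 * z) (by positivity) (θ + 1)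
      have h2 : (0 : ℝ) ≤ (2 : ℝ) ^ (-((θ + 1 : ℕ) : ℝ) / 2) := by positivity
      obtain ⟨y, hy⟩ : ∃ y : ℝ, y = (2 : ℝ) ^ (-((θ + 1 : ℕ) : ℝ) / 2) := ⟨_, rfl⟩
      rw [← hy] at h1 h2
      have h4 : 0 ≤ 2 * (2 * (θ : ℝ) + 1) * (2 * z) * y := by positivity
      have h5 : (G θ (θ + 1) : ℝ) * 4 ^ r ≤ g * (z / 2) := by
        rw [← hg]
        exact mul_le_mul_of_nonneg_left (by linarith) (Nat.cast_nonneg _)
      nlinarith

theorem G_le2 {k L : ℕ} (hk : 1 ≤ k) (hL : 1 ≤ L) (hkL : k < 2 ^ L) :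
    G (19 * k * L) (19 * k * L + 1) ≤ 377 * k * L ^ 2 := by
  have h1 := G_le (19 * k * L) (19 * k * L + 1)
  have h2 := harmonic_le_one_add_log (19 * k * L + 1 + 1)
  have hL2 : L ≤ 2 ^ (L - 1) := by
    have := Nat.lt_two_pow_self (n := L - 1)
    omega
  have h3 : ((19 * k * L + 1 + 1 : ℕ) : ℝ) ≤ 2 ^ (4 + 2 * L) := by
    have h4 : 19 * k * L + 1 + 1 ≤ 32 * (k * L) := by nlinarith [Nat.mul_le_mul hk hL]
    have h5 : k * L ≤ 2 ^ L * 2 ^ (L - 1) := Nat.mul_le_mul hkL.le hL2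
    have h6 : 32 * (2 ^ L * 2 ^ (L - 1)) = 2 ^ (4 + 2 * L) := by
      rw [← pow_add, show (32 : ℕ) = 2 ^ 5 by norm_num, ← pow_add]
      congr 1
      omega
    exact_mod_cast (h4.trans (Nat.mul_le_mul_left _ h5)).trans_eq h6
  have h4 : Real.log ((19 * k * L + 1 + 1 : ℕ) : ℝ) ≤ (4 + 2 * L) * 0.6931471808 := by
    calc Real.log ((19 * k * L + 1 + 1 : ℕ) : ℝ) ≤ Real.log ((2 : ℝ) ^ (4 + 2 * L)) :=
          Real.log_le_log (by positivity) h3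
      _ = (4 + 2 * L) * Real.log 2 := by rw [Real.log_pow]; push_cast; ring
      _ ≤ _ := mul_le_mul_of_nonneg_left Real.log_two_lt_d9.le (by positivity)
  have h5 : (1 : ℝ) ≤ L := by exact_mod_cast hL
  have h6 : (1 : ℝ) ≤ k := by exact_mod_cast hk
  have h7 : (harmonic (19 * k * L + 1 + 1) : ℝ) - 1 ≤ 4.16 * L := by
    have : (4 + 2 * (L : ℝ)) * 0.6931471808 ≤ 4.16 * L := by nlinarith
    linarith
  have h8 : (G (19 * k * L) (19 * k * L + 1) : ℝ) ≤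
      4 * (19 * k * L) * (4.16 * L) + 3 * (19 * k * L + 1) := by
    refine h1.trans ?_
    push_cast
    have := mul_le_mul_of_nonneg_left h7 (by positivity : (0 : ℝ) ≤ 4 * (19 * k * L))
    linarith
  have h9 : (G (19 * k * L) (19 * k * L + 1) : ℝ) ≤ 377 * k * L ^ 2 := by
    refine h8.trans ?_
    have h10 : (1 : ℝ) ≤ k * L := by nlinarith
    have h11 : (k : ℝ) * L ≤ k * L ^ 2 := by nlinarith
    nlinarith
  exact_mod_cast h9

theorem pow_le2 {k L r : ℕ} (hk : 1 ≤ k) (hL : 1 ≤ L) (hkL : k < 2 ^ L) (hr : r ≤ k) :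
    2 * ((2 + 2 * 4 ^ r) * (256 * (19 * k * L) + 134 + 4 * G (19 * k * L) (19 * k * L + 1)) ^ k)
      ≤ 2 ^ (19 * k * L) := by
  have hG := G_le2 hk hL hkL
  obtain ⟨g, hg⟩ : ∃ g, g = G (19 * k * L) (19 * k * L + 1) := ⟨_, rfl⟩
  rw [← hg] at hG ⊢
  have h0 : 1 ≤ k * L := Nat.mul_le_mul hk hL
  have hL2 : L ≤ 2 ^ (L - 1) := by
    have := Nat.lt_two_pow_self (n := L - 1)
    omega
  have h1 : 256 * (19 * k * L) + 134 + 4 * g ≤ 2 ^ (3 * L + 11) := by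
    have h2 : k * L ≤ k * L ^ 2 := Nat.mul_le_mul_left _ (by nlinarith)
    have h3 : 256 * (19 * k * L) + 134 + 4 * g ≤ 8192 * (k * L ^ 2) := by nlinarith
    have h4 : k * L ^ 2 ≤ 2 ^ L * (2 ^ (L - 1)) ^ 2 :=
      Nat.mul_le_mul hkL.le (Nat.pow_le_pow_left hL2 2)
    have h5 : 8192 * (2 ^ L * (2 ^ (L - 1)) ^ 2) = 2 ^ (3 * L + 11) := by
      rw [← pow_mul, ← pow_add, show (8192 : ℕ) = 2 ^ 13 by norm_num, ← pow_add]
      congr 1
      omega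
    exact (h3.trans (Nat.mul_le_mul_left _ h4)).trans_eq h5
  have h2 : 2 * (2 + 2 * 4 ^ r) ≤ 2 ^ (3 + 2 * k) := by
    have h3 : 1 ≤ 4 ^ r := Nat.one_le_pow _ _ (by norm_num)
    have h4 : 4 ^ r ≤ 4 ^ k := Nat.pow_le_pow_right (by norm_num) hr
    have h5 : 2 ^ (3 + 2 * k) = 8 * 4 ^ k := by
      rw [pow_add, pow_mul]
      norm_num
    omega
  calc 2 * ((2 + 2 * 4 ^ r) * (256 * (19 * k * L) + 134 + 4 * g) ^ k)
      = 2 * (2 + 2 * 4 ^ r) * (256 * (19 * k * L) + 134 + 4 * g) ^ k := by ring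
    _ ≤ 2 ^ (3 + 2 * k) * (2 ^ (3 * L + 11)) ^ k :=
        Nat.mul_le_mul h2 (Nat.pow_le_pow_left h1 k)
    _ = 2 ^ (3 + 2 * k + (3 * L + 11) * k) := by rw [← pow_mul, ← pow_add]
    _ ≤ 2 ^ (19 * k * L) := Nat.pow_le_pow_right (by norm_num) (by nlinarith)

/-- the adversary wins -/
theorem lw_main {r k : ℕ} (hA : Valid A r) (hk : 1 ≤ k) (hr : r ≤ k)
    (hn : 15500 * (2 * r + 1) * k ^ 2 * (Nat.log 2 k + 1) ^ 3 ≤ n) (x₀ : Fin n → Bool) :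
    ∃ (q : List (Rec n)) (b : Fin n → Bool) (O' : Finset (Fin n))
      (e : List (Rec n × (Fin n → Bool))),
      Walk A c (Rel e) [] x₀ ∅ q b O' ∧ ExtC univ x₀ q e ∧ 2 ^ k ≤ q.length := by
  obtain ⟨L, hL⟩ : ∃ L, L = Nat.log 2 k + 1 := ⟨_, rfl⟩
  rw [← hL] at hn
  have hL1 : 1 ≤ L := by omega
  have hkL : k < 2 ^ L := by
    rw [hL]
    exact Nat.lt_pow_succ_log_self (by norm_num) k
  have h0 : 1 ≤ k * L := Nat.mul_le_mul hk hL1
  have h1 := G_le2 hk hL1 hkL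
  have h2 := lw_all (n := n) (c := c) hA (θ := 19 * k * L) (k := k)
    (by nlinarith) (pow_le2 hk hL1 hkL hr) k le_rfl
  obtain ⟨m, hm⟩ : ∃ m, m = G (19 * k * L) (19 * k * L + 1) := ⟨_, rfl⟩
  rw [← hm] at h1 h2
  obtain ⟨ρ, hρ⟩ : ∃ ρ, ρ = 2 * r + 1 := ⟨_, rfl⟩
  rw [← hρ] at h2 hn
  have h3 : 2 * (m * ρ) * (19 * k * L) + (k + 2) * (m * ρ) < n := by
    have h4 : 2 * (m * ρ) * (19 * k * L) + (k + 2) * (m * ρ)
        ≤ (377 * k * L ^ 2 * ρ) * (41 * (k * L)) := by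
      calc 2 * (m * ρ) * (19 * k * L) + (k + 2) * (m * ρ)
          = m * ρ * (38 * (k * L) + (k + 2)) := by ring
        _ ≤ (377 * k * L ^ 2 * ρ) * (41 * (k * L)) := by
          refine Nat.mul_le_mul (Nat.mul_le_mul_right _ h1) ?_
          nlinarith
    have h5 : (377 * k * L ^ 2 * ρ) * (41 * (k * L)) = 15457 * (ρ * k ^ 2 * L ^ 3) := by ring
    have h6 : 15500 * ρ * k ^ 2 * L ^ 3 = 15500 * (ρ * k ^ 2 * L ^ 3) := by ring
    have h7 : 0 < ρ * k ^ 2 * L ^ 3 := by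
      have : 0 < ρ := by omega
      positivity
    omega
  obtain ⟨q, b, O', X, e, w, E, -, -, -, -, -, -, -, hlen, -⟩ :=
    h2 univ [] x₀ ∅ (by simp) (by simpa using h3)
  exact ⟨q, b, O', e, w, E, hlen⟩

end Pool.Agent.J4.H61.LN
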