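import Pool.Agent.J4.H61.LN.Num
set_option autoImplicit false

/-!
# The run of a rule on the final objective function
-/

namespace Pool.Agent.J4.H61.LN

open Finset Pool.Agent.TH70.AR Pool.Agent.TH70.AR.MS

variable {n : ℕ}

/-- relabelling the values so that the vertices of a given increasing path get prescribed values -/
lemma relabel' {f : (Fin n → Bool) → ℕ} {T : ℕ} (w : ℕ → (Fin n → Bool))
    (hw : ∀ t, t + 1 < T → f (w t) < f (w (t + 1))) :
    ∃ g : (Fin n → Bool) → ℕ, Function.Injective g ∧
      (∀ u v, f u < f v → g u < g v) ∧ ∀ t < T, g (w t) = (t + 1) * 2 ^ n := by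
  classical
  set e := Fintype.equivFin (Fin n → Bool) with he
  have hcard : Fintype.card (Fin n → Bool) = 2 ^ n := by simp
  -- an injective refinement of `f`
  set κ : (Fin n → Bool) → ℕ := fun u => f u * 2 ^ n + (e u : ℕ) with hκ
  have hκe : ∀ u, (e u : ℕ) < 2 ^ n := fun u => hcard ▸ (e u).2
  have hκlt : ∀ u v, f u < f v → κ u < κ v := by
    intro u v h
    simp only [hκ]
    have h1 := hκe u
    have h2 : (f u + 1) * 2 ^ n ≤ f v * 2 ^ n := Nat.mul_le_mul_right _ h
    nlinarith
  have hκinj : Function.Injective κ := by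
    intro u v h
    have h1 : f u = f v := by
      rcases lt_trichotomy (f u) (f v) with h' | h' | h'
      · exact absurd h (hκlt u v h').ne
      · exact h'
      · exact absurd h (hκlt v u h').ne'
    simp only [hκ, h1] at h
    exact e.injective (Fin.ext (by omega))
  have hginj : ∀ (g : (Fin n → Bool) → ℕ), (∀ u v, κ u < κ v → g u < g v) →
      Function.Injective g := by
    intro g hg u v h
    rcases lt_trichotomy (κ u) (κ v) with h' | h' | h'
    · exact absurd h (hg u v h').ne
    · exact hκinj h'
    · exact absurd h (hg v u h').ne'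
  rcases Nat.eq_zero_or_pos T with hT | hT
  · exact ⟨κ, hκinj, hκlt, fun t ht => by omega⟩
  -- the path is increasing
  have hwmono : ∀ s t, s < t → t < T → κ (w s) < κ (w t) := by
    intro s t hst
    induction t with
    | zero => omega
    | succ t ih =>
      intro ht
      rcases Nat.lt_succ_iff_lt_or_eq.1 hst with h | h
      · exact (ih h (by omega)).trans (hκlt _ _ (hw t ht))
      · subst h; exact hκlt _ _ (hw s ht)
  set c : (Fin n → Bool) → ℕ := fun u => ((range T).filter fun t => κ (w t) ≤ κ u).card with hc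
  set R : (Fin n → Bool) → Finset (Fin n → Bool) := fun u =>
    univ.filter fun u' => κ u' ≤ κ u ∧ c u' = c u ∧ ∀ t < T, u' ≠ w t with hR
  have hRc : ∀ u, (R u).card < 2 ^ n := by
    intro u
    rw [← hcard, ← card_univ]
    apply card_lt_card
    rw [ssubset_iff_of_subset (subset_univ _)]
    exact ⟨w 0, mem_univ _, fun h => by
      simp only [hR, mem_filter] at h
      exact h.2.2.2 0 hT rfl⟩
  have hcmono : ∀ u v, κ u ≤ κ v → c u ≤ c v := by
    intro u v h
    apply card_le_card
    intro t ht
    rw [mem_filter] at ht ⊢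
    exact ⟨ht.1, ht.2.trans h⟩
  have hmono : ∀ u v, κ u < κ v → c u * 2 ^ n + (R u).card < c v * 2 ^ n + (R v).card := by
    intro u v h
    have h1 := hcmono u v h.le
    rcases lt_or_eq_of_le h1 with h2 | h2
    · have h3 := hRc u
      have h4 : (c u + 1) * 2 ^ n ≤ c v * 2 ^ n := Nat.mul_le_mul_right _ h2
      nlinarith
    · have hv : ∀ t < T, v ≠ w t := by
        rintro t ht rfl
        have : c u < c (w t) := by
          apply card_lt_card
          rw [ssubset_iff_of_subset (by
            intro s hs
            rw [mem_filter] at hs ⊢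
            exact ⟨hs.1, hs.2.trans h.le⟩)]
          exact ⟨t, mem_filter.2 ⟨mem_range.2 ht, le_refl _⟩, fun h' => by
            rw [mem_filter] at h'
            omega⟩
        omega
      have h3 : (R u).card < (R v).card := by
        apply card_lt_card
        rw [ssubset_iff_of_subset (by
          intro s hs
          simp only [hR, mem_filter, mem_univ, true_and] at hs ⊢
          exact ⟨hs.1.trans h.le, hs.2.1.trans h2, hs.2.2⟩)]
        refine ⟨v, ?_, fun h' => ?_⟩
        · rw [hR, mem_filter]
          exact ⟨mem_univ _, le_refl _, rfl, hv⟩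
        · simp only [hR, mem_filter, mem_univ, true_and] at h'
          omega
      rw [h2]
      omega
  refine ⟨fun u => c u * 2 ^ n + (R u).card, hginj _ hmono,
    fun u v h => hmono u v (hκlt u v h), fun t ht => ?_⟩
  have h1 : c (w t) = t + 1 := by
    simp only [hc]
    rw [show (range T).filter (fun s => κ (w s) ≤ κ (w t)) = range (t + 1) from ?_, card_range]
    ext s
    rw [mem_filter, mem_range, mem_range]
    constructor
    · rintro ⟨h1, h2⟩
      by_contra h3
      have := hwmono t s (by omega) h1
      omega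
    · intro h1
      refine ⟨by omega, ?_⟩
      rcases Nat.lt_succ_iff_lt_or_eq.1 h1 with h | h
      · exact (hwmono s t h ht).le
      · rw [h]
  have h2 : R (w t) = ∅ := by
    rw [eq_empty_iff_forall_notMem]
    intro u hu
    simp only [hR, mem_filter, mem_univ, true_and] at hu
    obtain ⟨h3, h4, h5⟩ := hu
    have h6 : κ u < κ (w t) := lt_of_le_of_ne h3 fun h => h5 t ht (hκinj h)
    have h7 : c u < c (w t) := by
      apply card_lt_card
      rw [ssubset_iff_of_subset (by
        intro s hs
        rw [mem_filter] at hs ⊢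
        exact ⟨hs.1, hs.2.trans h6.le⟩)]
      exact ⟨t, mem_filter.2 ⟨mem_range.2 ht, le_refl _⟩, fun h' => by
        rw [mem_filter] at h'
        omega⟩
    omega
  simp only [h1, h2, card_empty, add_zero]


/-- a vertex is higher than all the vertices which differ from it in directions that do not improve -/
lemma lt_of_off {f : (Fin n → Bool) → ℕ} (hf : AOF f) {u a : Fin n → Bool} (hne : u ≠ a)
    (h : ∀ x, u x ≠ a x → x ∉ improving f a) : f u < f a := by
  classical
  set D : Finset (Fin n) := univ.filter fun x => u x ≠ a x with hD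
  set Fa : Finset (Fin n → Bool) := univ.filter fun y => ∀ i, i ∉ D → y i = a i with hFa
  have haF : a ∈ Fa := mem_filter.2 ⟨mem_univ a, fun _ _ => rfl⟩
  have huF : u ∈ Fa := by
    refine mem_filter.2 ⟨mem_univ u, fun i hi => ?_⟩
    by_contra h1
    exact hi (mem_filter.2 ⟨mem_univ i, h1⟩)
  have hloc : ∀ y ∈ Fa, (∀ z ∈ Fa, f z ≤ f y) → y = a := by
    intro y hy hmax
    rw [hFa, mem_filter] at hy
    refine (hf D a).unique ⟨hy.2, fun i hi => ?_⟩ ⟨fun _ _ => rfl, fun i hi => ?_⟩
    · refine lt_of_le_of_ne (hmax _ (mem_filter.2 ⟨mem_univ _, fun j hj => ?_⟩)) (hf.ne y i)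
      rw [flip_of_ne _ (by rintro rfl; exact hj hi)]
      exact hy.2 j hj
    · have h1 := h i (mem_filter.1 hi).2
      rw [improving, mem_filter] at h1
      exact lt_of_le_of_ne (by by_contra h2; exact h1 ⟨mem_univ i, by omega⟩) (hf.ne a i)
  obtain ⟨y, hy, hmax⟩ := exists_max_image Fa f ⟨a, haF⟩
  have hya := hloc y hy hmax
  rw [hya] at hmax
  refine lt_of_le_of_ne (hmax u huF) fun h1 => hne (hloc u huF fun z hz => ?_)
  rw [h1]
  exact hmax z hz

/-- the best candidate -/
lemma exists_best (f : (Fin n → Bool) → ℕ) (x : Fin n → Bool) {𝓕 : Finset (Finset (Fin n))}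
    (h𝓕 : 𝓕.Nonempty) (D : Finset (Fin n)) :
    ∃ y, Cand x 𝓕 D y ∧ ∀ z, Cand x 𝓕 D z → f z ≤ f y := by
  classical
  obtain ⟨T, hT⟩ := h𝓕
  obtain ⟨y, hy, hmax⟩ := exists_max_image (univ.filter fun y => Cand x 𝓕 D y) f
    ⟨sw x T, mem_filter.2 ⟨mem_univ _, cand_sw hT⟩⟩
  exact ⟨y, (mem_filter.1 hy).2, fun z hz => hmax z (mem_filter.2 ⟨mem_univ z, hz⟩)⟩

open Classical in
/-- the next vertex -/
noncomputable def nxt (f : (Fin n → Bool) → ℕ) (x : Fin n → Bool)
    (m : Finset (Finset (Fin n)) × Finset (Fin n)) : Fin n → Bool :=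
  if h : m.1.Nonempty then (exists_best f x h m.2).choose else x

lemma nxt_spec (f : (Fin n → Bool) → ℕ) (x : Fin n → Bool)
    {m : Finset (Finset (Fin n)) × Finset (Fin n)} (h : m.1.Nonempty) :
    Cand x m.1 m.2 (nxt f x m) ∧ ∀ z, Cand x m.1 m.2 z → f z ≤ f (nxt f x m) := by
  rw [nxt, dif_pos h]
  exact (exists_best f x h m.2).choose_spec

/-- `t` moves of the rule from `a` with the past `h` -/
noncomputable def run (A : Past n → Finset (Finset (Fin n)) × Finset (Fin n))
    (f : (Fin n → Bool) → ℕ) : ℕ → (Fin n → Bool) → Past n → (Fin n → Bool) × Past n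
  | 0, a, h => (a, h)
  | t + 1, a, h => run A f t (nxt f a (A (view f a :: h))) (view f a :: h)

lemma run_succ (A : Past n → Finset (Finset (Fin n)) × Finset (Fin n))
    (f : (Fin n → Bool) → ℕ) (t : ℕ) (a : Fin n → Bool) (h : Past n) : run A f (t + 1) a h =
      (nxt f (run A f t a h).1 (A (view f (run A f t a h).1 :: (run A f t a h).2)),
        view f (run A f t a h).1 :: (run A f t a h).2) := by
  induction t generalizing a h with
  | zero => rfl
  | succ t ih => rw [run, ih]; rfl

lemma run_walk {A : Past n → Finset (Finset (Fin n)) × Finset (Fin n)} {c : ℕ → ℕ}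
    {R : (Fin n → Bool) → (Fin n → Bool) → Prop} {f : (Fin n → Bool) → ℕ} (hf : AOF f)
    (hR : ∀ u v, R u v → f u < f v)
    {q : List (Rec n)} {h : Past n} {a b : Fin n → Bool} {O O' : Finset (Fin n)}
    (hq : Walk A c R h a O q b O') (hS : ∀ r ∈ q, improving f r.w = r.S)
    (hv : ∀ (t : ℕ) (ht : t < q.length), f (q[t]).w = c (h.length + t)) :
    ∀ (t : ℕ) (ht : t < q.length), (run A f t a h).1 = (q[t]).w ∧ (q[t]).S.Nonempty := by
  induction q generalizing h a O with
  | nil => intro t ht; simp at ht
  | cons r q ih =>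
    simp only [Walk] at hq
    obtain ⟨h1, h2, h3, T, hT, hcand, hq⟩ := hq
    have h4 : view f a = (a, c h.length, r.S) := by
      have h5 := hv 0 (by simp)
      simp only [List.getElem_cons_zero, add_zero] at h5
      rw [view, ← h1, h5, hS r List.mem_cons_self]
    intro t ht
    cases t with
    | zero => exact ⟨h1.symm, h2⟩
    | succ t =>
      have hnxt : nxt f a (A ((a, c h.length, r.S) :: h)) = sw a T := by
        obtain ⟨hy1, hy2⟩ := nxt_spec f a (m := A ((a, c h.length, r.S) :: h)) ⟨T, hT⟩
        by_contra hne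
        have h5 := hy2 _ (cand_sw hT)
        have h6 : f (nxt f a (A ((a, c h.length, r.S) :: h))) < f (sw a T) := by
          rcases hcand _ hy1 with h6 | h6
          · refine lt_of_off hf hne fun x hx => ?_
            have hxD : x ∈ (A ((a, c h.length, r.S) :: h)).2 := by
              by_contra h7
              exact hx (h6 x h7)
            cases q with
            | nil => simp at ht
            | cons r' q =>
              simp only [Walk] at hq
              rw [← hq.1, hS r' (by simp)]
              exact fun h8 => Finset.disjoint_left.1 hq.2.2.1 h8 hxD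
          · exact hR _ _ h6
        omega
      have h5 := ih hq (fun r hr => hS r (List.mem_cons_of_mem _ hr)) (by
        intro t ht
        have := hv (t + 1) (by simpa using ht)
        simp only [List.getElem_cons_succ] at this
        rw [this, List.length_cons]
        congr 1
        omega) t (by simpa using ht)
      rw [run, h4, hnxt]
      simpa using h5

/-- The main lower bound. -/
theorem slow {n k r : ℕ} (hk : 1 ≤ k) (hr : r ≤ k)
    (hn : 15500 * (2 * r + 1) * k ^ 2 * (Nat.log 2 k + 1) ^ 3 ≤ n)
    (A : Past n → Finset (Finset (Fin n)) × Finset (Fin n))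
    (hA : Valid A r) (x₀ : Fin n → Bool) :
    ∃ f : (Fin n → Bool) → ℕ, Function.Injective f ∧ AOF f ∧
      ∃ (L : ℕ) (w : ℕ → (Fin n → Bool)), w 0 = x₀ ∧
        (∀ t < L, (improving f (w t)).Nonempty ∧
          Cand (w t) (A (seen f w t)).1 (A (seen f w t)).2 (w (t + 1)) ∧
          ∀ y, Cand (w t) (A (seen f w t)).1 (A (seen f w t)).2 y → f y ≤ f (w (t + 1))) ∧
        improving f (w L) = ∅ ∧ 2 ^ k ≤ L := by
  classical
  obtain ⟨q, b, O', e, hq, hE, hlen⟩ :=
    lw_main (c := fun t => (t + 1) * 2 ^ n) hA hk hr hn x₀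
  obtain ⟨f₀, hf₀, hf₀S, -, hf₀C⟩ := hE (fun _ => false) ∅ (by simp) (by simp)
  have hf₀S' : ∀ r ∈ q, improving f₀ r.w = r.S := by
    intro r hr
    ext i
    rw [improving, mem_filter]
    simpa using hf₀S r hr i (mem_univ i)
  have hf₀R : ∀ u v, Rel e u v → f₀ u < f₀ v := by
    rintro u v ⟨z, hz, rfl, rfl⟩
    exact hf₀C z hz (by simp)
  -- the visited vertices increase
  have hinc : ∀ (q : List (Rec n)) (h : Past n) (a : Fin n → Bool) (O : Finset (Fin n)),
      Walk A (fun t => (t + 1) * 2 ^ n) (Rel e) h a O q b O' →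
      (∀ r ∈ q, improving f₀ r.w = r.S) →
      ∀ (t : ℕ) (ht : t + 1 < q.length), f₀ (q[t]).w < f₀ (q[t + 1]).w := by
    intro q
    induction q with
    | nil => intro h a _ _ _ t ht; simp at ht
    | cons r q ih =>
      intro h a O hq hS t ht
      simp only [Walk] at hq
      obtain ⟨h1, h2, -, T, hT, -, h3⟩ := hq
      cases t with
      | zero =>
        cases q with
        | nil => simp at ht
        | cons s q =>
          simp only [Walk] at h3
          simp only [List.getElem_cons_zero, List.getElem_cons_succ]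
          rw [h3.1, h1]
          have h4 := (hA a ((h.length + 1) * 2 ^ n) r.S h h2).2.2.2 T hT
          apply sw_lt hf₀ _ _ h4.1
          rw [← h1, hS r List.mem_cons_self]
          exact h4.2
      | succ t =>
        simp only [List.getElem_cons_succ]
        exact ih _ _ _ h3 (fun r hr => hS r (List.mem_cons_of_mem _ hr)) t (by simpa using ht)
  set u : ℕ → (Fin n → Bool) := fun t => if ht : t < q.length then (q[t]).w else x₀ with hu
  have hut : ∀ (t : ℕ) (ht : t < q.length), u t = (q[t]).w := fun t ht => by simp [hu, ht]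
  obtain ⟨f, hinj, hord, hval⟩ := relabel' (f := f₀) (T := q.length) u (by
    intro t ht
    rw [hut t (by omega), hut (t + 1) ht]
    exact hinc q [] x₀ ∅ hq hf₀S' t ht)
  have hadj : ∀ x i, f x < f (TH70.AR.flip x i) ↔ f₀ x < f₀ (TH70.AR.flip x i) := by
    intro x i
    constructor
    · intro h
      by_contra h'
      have h1 := hord _ _ (lt_of_le_of_ne (not_lt.1 h') (hf₀.ne x i))
      omega
    · exact hord _ _
  have himp : ∀ x, improving f x = improving f₀ x := by
    intro x
    ext i
    simp only [improving, mem_filter, hadj]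
  have hAOF : AOF f := by
    have h1 : ∀ y i, f (TH70.AR.flip y i) < f y ↔ f₀ (TH70.AR.flip y i) < f₀ y := by
      intro y i
      have := hadj (TH70.AR.flip y i) i
      rwa [TH70.AR.flip_flip] at this
    intro F x
    obtain ⟨y, ⟨hy1, hy2⟩, hy3⟩ := hf₀ F x
    exact ⟨y, ⟨hy1, fun i hi => (h1 y i).2 (hy2 i hi)⟩,
      fun z hz => hy3 z ⟨hz.1, fun i hi => (h1 z i).1 (hz.2 i hi)⟩⟩
  have hrun := run_walk (f := f) hAOF (fun u v h => hord _ _ (hf₀R u v h)) hq
    (fun r hr => (himp _).trans (hf₀S' r hr)) (by
    intro t ht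
    rw [← hut t ht, hval t ht]
    simp)
  refine ⟨f, hinj, hAOF, ?_⟩
  -- the run
  set w : ℕ → (Fin n → Bool) := fun t => (run A f t x₀ []).1 with hw
  have hseen : ∀ t, seen f w t = view f (w t) :: (run A f t x₀ []).2 := by
    intro t
    induction t with
    | zero => rfl
    | succ t ih => rw [seen, ih, run_succ]
  have hstep : ∀ t, w (t + 1) = nxt f (w t) (A (seen f w t)) := by
    intro t
    rw [hseen]
    simp only [hw, run_succ]
  have hvalid : ∀ t, (improving f (w t)).Nonempty → (A (seen f w t)).1.Nonempty ∧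
      ∀ T ∈ (A (seen f w t)).1, T.Nonempty ∧ T ⊆ improving f (w t) := by
    intro t ht
    have h1 := hA (w t) (f (w t)) (improving f (w t)) (run A f t x₀ []).2 ht
    rw [hseen]
    exact ⟨h1.1, h1.2.2.2⟩
  have hbest : ∀ t, (improving f (w t)).Nonempty →
      Cand (w t) (A (seen f w t)).1 (A (seen f w t)).2 (w (t + 1)) ∧
      ∀ y, Cand (w t) (A (seen f w t)).1 (A (seen f w t)).2 y → f y ≤ f (w (t + 1)) := by
    intro t ht
    rw [hstep]
    exact nxt_spec f (w t) (hvalid t ht).1
  have hup : ∀ t, (improving f (w t)).Nonempty → f (w t) < f (w (t + 1)) := by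
    intro t ht
    obtain ⟨⟨T, hT⟩, h2⟩ := hvalid t ht
    exact lt_of_lt_of_le (sw_lt hAOF _ (h2 T hT).2 (h2 T hT).1) ((hbest t ht).2 _ (cand_sw hT))
  have hend : ∃ t, improving f (w t) = ∅ := by
    by_contra hne
    push Not at hne
    have h1 : StrictMono fun t => f (w t) := strictMono_nat_of_lt_succ fun t => hup t (hne t)
    have h2 := h1.injective
    have h3 : Function.Injective w := fun s t h => h2 (by simp only [h])
    exact not_injective_infinite_finite w h3
  refine ⟨Nat.find hend, w, rfl, fun t ht => ?_, Nat.find_spec hend, ?_⟩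
  · have h1 := nonempty_iff_ne_empty.2 (Nat.find_min hend ht)
    exact ⟨h1, hbest t h1⟩
  · by_contra hlt
    have h1 : Nat.find hend < q.length := by omega
    have h2 := hrun _ h1
    have h3 : improving f (w (Nat.find hend)) = (q[Nat.find hend]).S := by
      rw [himp, ← hf₀S' _ (List.getElem_mem h1)]
      congr 1
      exact h2.1
    rw [Nat.find_spec hend] at h3
    rw [← h3] at h2
    exact absurd h2.2 (by simp)

end Pool.Agent.J4.H61.LN
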