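import Pool.Agent.J4.H61.LN.Iso
set_option autoImplicit false

/-!
# Walks of a rule which moves to the best vertex of a neighbourhood
-/

namespace Pool.Agent.J4.H61.LN

open Finset Pool.Agent.TH70.AR Pool.Agent.TH70.AR.MS

variable {n : ℕ}

/-- the rule names at most `2 ^ r` nonempty sets of improving directions, and at most `r` further
directions -/
def Valid (A : Past n → Finset (Finset (Fin n)) × Finset (Fin n)) (r : ℕ) : Prop :=
  ∀ (x : Fin n → Bool) (c : ℕ) (S : Finset (Fin n)) (l : Past n), S.Nonempty →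
    (A ((x, c, S) :: l)).1.Nonempty ∧ (A ((x, c, S) :: l)).1.card ≤ 2 ^ r ∧
    (A ((x, c, S) :: l)).2.card ≤ r ∧ ∀ T ∈ (A ((x, c, S) :: l)).1, T.Nonempty ∧ T ⊆ S

/-- the comparisons in the list `e` -/
def Rel (e : List (Rec n × (Fin n → Bool))) (u v : Fin n → Bool) : Prop :=
  ∃ c ∈ e, c.1.w = u ∧ c.2 = v

/-- The records `p` form a walk of the rule `A` from `a` to `b`; `h` is the past before `a`, and the
vertex visited after `t` steps has value `c t`. No direction in `O` is improving at the first record, and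
`O'` is the set of directions that are not to be improving at `b`. The relation `R` contains the
comparisons which show that the vertices of the walk are the best candidates. -/
def Walk (A : Past n → Finset (Finset (Fin n)) × Finset (Fin n)) (c : ℕ → ℕ)
    (R : (Fin n → Bool) → (Fin n → Bool) → Prop) :
    Past n → (Fin n → Bool) → Finset (Fin n) → List (Rec n) → (Fin n → Bool) →
      Finset (Fin n) → Prop
  | _, a, O, [], b, O' => a = b ∧ O = O'
  | h, a, O, r :: p, b, O' => r.w = a ∧ r.S.Nonempty ∧ Disjoint r.S O ∧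
      ∃ T ∈ (A ((a, c h.length, r.S) :: h)).1,
        (∀ y, Cand a (A ((a, c h.length, r.S) :: h)).1 (A ((a, c h.length, r.S) :: h)).2 y →
          (∀ i, i ∉ (A ((a, c h.length, r.S) :: h)).2 → y i = sw a T i) ∨ R y (sw a T)) ∧
        Walk A c R ((a, c h.length, r.S) :: h) (sw a T) (A ((a, c h.length, r.S) :: h)).2 p b O'

variable {A : Past n → Finset (Finset (Fin n)) × Finset (Fin n)} {c : ℕ → ℕ}
  {R R' : (Fin n → Bool) → (Fin n → Bool) → Prop}

lemma walk_append {p q : List (Rec n)} {h : Past n} {a b d : Fin n → Bool}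
    {O O₁ O₂ : Finset (Fin n)} (hp : Walk A c R h a O p d O₁)
    (hq : Walk A c R (pst c h p) d O₁ q b O₂) : Walk A c R h a O (p ++ q) b O₂ := by
  induction p generalizing h a O with
  | nil =>
    simp only [Walk] at hp
    obtain ⟨rfl, rfl⟩ := hp
    simpa [pst] using hq
  | cons r p ih =>
    simp only [Walk, List.cons_append] at hp ⊢
    obtain ⟨h1, h2, h3, T, hT, h4, h5⟩ := hp
    refine ⟨h1, h2, h3, T, hT, h4, ih h5 ?_⟩
    rw [← h1]
    simpa [pst] using hq

lemma walk_map {p : List (Rec n)} {h : Past n} {a d : Fin n → Bool} {O O' : Finset (Fin n)}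
    {X : Finset (Fin n)} {b : Fin n → Bool} (hp : Walk A c R h a O p d O') :
    Walk A c R h a O (p.map (cl X b)) d O' := by
  induction p generalizing h a O with
  | nil => simpa [Walk] using hp
  | cons r p ih =>
    simp only [Walk, List.map_cons] at hp ⊢
    obtain ⟨h1, h2, h3, T, hT, h4, h5⟩ := hp
    exact ⟨h1, h2, h3, T, hT, h4, ih h5⟩

lemma walk_mono {p : List (Rec n)} {h : Past n} {a d : Fin n → Bool} {O O' : Finset (Fin n)}
    (hp : Walk A c R h a O p d O') (hR : ∀ u v, R u v → R' u v) : Walk A c R' h a O p d O' := by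
  induction p generalizing h a O with
  | nil => simpa [Walk] using hp
  | cons r p ih =>
    simp only [Walk] at hp ⊢
    obtain ⟨h1, h2, h3, T, hT, h4, h5⟩ := hp
    exact ⟨h1, h2, h3, T, hT, fun y hy => (h4 y hy).imp id (hR _ _), ih h5⟩

/-- the walk does not change coordinates that are never shown as improving -/
lemma walk_fix {r : ℕ} (hA : Valid A r) {Y : Finset (Fin n)} {p : List (Rec n)} {h : Past n}
    {a b : Fin n → Bool} {O O' : Finset (Fin n)} (hp : Walk A c R h a O p b O')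
    (hS : ∀ r ∈ p, r.S ⊆ Y) :
    (∀ x, x ∉ Y → b x = a x) ∧ ∀ r ∈ p, ∀ x, x ∉ Y → r.w x = a x := by
  induction p generalizing h a O with
  | nil =>
    simp only [Walk] at hp
    obtain ⟨rfl, -⟩ := hp
    simp
  | cons r p ih =>
    simp only [Walk] at hp
    obtain ⟨h1, h2, h3, T, hT, h4, h5⟩ := hp
    obtain ⟨i1, i2⟩ := ih h5 fun r hr => hS r (List.mem_cons_of_mem _ hr)
    have hm := ((hA a (c h.length) r.S h h2).2.2.2 T hT).2.trans (hS r List.mem_cons_self)
    have key : ∀ x, x ∉ Y → sw a T x = a x := fun x hx => sw_not_mem fun h => hx (hm h)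
    refine ⟨fun x hx => (i1 x hx).trans (key x hx), fun s hs x hx => ?_⟩
    rcases List.mem_cons.1 hs with rfl | hs
    · rw [h1]
    · exact (i2 s hs x hx).trans (key x hx)

lemma walk_card {r : ℕ} (hA : Valid A r) {p : List (Rec n)} {h : Past n} {a b : Fin n → Bool}
    {O O' : Finset (Fin n)} (hp : Walk A c R h a O p b O') (hO : O.card ≤ r) : O'.card ≤ r := by
  induction p generalizing h a O with
  | nil =>
    simp only [Walk] at hp
    obtain ⟨-, rfl⟩ := hp
    exact hO
  | cons s p ih =>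
    simp only [Walk] at hp
    obtain ⟨h1, h2, h3, T, hT, h4, h5⟩ := hp
    exact ih h5 (hA a (c h.length) s.S h h2).2.2.1

lemma rel_append_left {e e' : List (Rec n × (Fin n → Bool))} :
    ∀ u v, Rel e u v → Rel (e ++ e') u v := by
  rintro u v ⟨c, hc, h⟩
  exact ⟨c, List.mem_append_left _ hc, h⟩

lemma rel_append_right {e e' : List (Rec n × (Fin n → Bool))} :
    ∀ u v, Rel e' u v → Rel (e ++ e') u v := by
  rintro u v ⟨c, hc, h⟩
  exact ⟨c, List.mem_append_right _ hc, h⟩

lemma rel_map {e : List (Rec n × (Fin n → Bool))} {X : Finset (Fin n)} {b : Fin n → Bool} :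
    ∀ u v, Rel e u v → Rel (e.map (clC X b)) u v := by
  rintro u v ⟨c, hc, h⟩
  exact ⟨clC X b c, List.mem_map_of_mem hc, h⟩

/-- one move -/
lemma one_move {r : ℕ} (hA : Valid A r) (Y : Finset (Fin n)) {S : Finset (Fin n)} (hS : S.Nonempty)
    (h : Past n) (a : Fin n → Bool) (k : ℕ) :
    ∃ T ∈ (A ((a, k, S) :: h)).1, ∃ i ∈ T, ∃ F, F ⊆ S ∧ i ∈ F ∧ F.card ≤ r + 1 ∧
      (∀ y, Cand a (A ((a, k, S) :: h)).1 (A ((a, k, S) :: h)).2 y →
        (∀ i, i ∉ (A ((a, k, S) :: h)).2 → y i = sw a T i) ∨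
          Rel (news Y F a (A ((a, k, S) :: h)).1 (A ((a, k, S) :: h)).2 (sw a T)) y (sw a T)) ∧
      (∀ e ∈ news Y F a (A ((a, k, S) :: h)).1 (A ((a, k, S) :: h)).2 (sw a T),
        e.2 = sw a T ∧ e.1.W ⊆ Y ∧ (Y \ e.1.W).card ≤ F.card ∧
        (∃ x ∈ F, sw a T x ≠ e.1.w x) ∧ (∀ x ∈ Y, sw a T x ≠ e.1.w x → x ∈ e.1.W) ∧
        ∀ x ∈ e.1.W, x ∈ F → sw a T x ≠ e.1.w x) := by
  classical
  obtain ⟨h1, h2, h3, h4⟩ := hA a k S h hS
  obtain ⟨T, hT, i, hi, F, hF, hiF, hFc, hsep⟩ :=
    iso (D := (A ((a, k, S) :: h)).2) h1 h2 h4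
  refine ⟨T, hT, i, hi, F, hF, hiF, hFc, ?_, ?_⟩
  · intro y hy
    by_cases hyb : ∀ i, i ∉ (A ((a, k, S) :: h)).2 → y i = sw a T i
    · exact Or.inl hyb
    · exact Or.inr ⟨_, mem_news.2 ⟨y, hy, hyb, rfl⟩, rfl, rfl⟩
  · intro e he
    obtain ⟨y, hy, hyb, rfl⟩ := mem_news.1 he
    refine ⟨rfl, filter_subset _ _, ?_, sep hsep hy hyb, ?_, ?_⟩
    · apply card_le_card
      intro x hx
      rw [mem_sdiff] at hx
      by_contra hxF
      exact hx.2 (mem_filter.2 ⟨hx.1, fun h => hxF h.1⟩)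
    · intro x hx hne
      exact mem_filter.2 ⟨hx, fun h => hne h.2⟩
    · intro x hx hxF h
      exact (mem_filter.1 hx).2 ⟨hxF, h⟩

end Pool.Agent.J4.H61.LN
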