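import Pool.Agent.J4.H61.LN.Walk
import Pool.Agent.R617.SR.Wipe
set_option autoImplicit false

/-!
# The wiping phase
-/

namespace Pool.Agent.J4.H61.LN

open Finset Pool.Agent.TH70.AR Pool.Agent.TH70.AR.MS Pool.Agent.R617.SR

variable {n : ℕ}

lemma wipes_mono {X X' : Finset (Fin n)} (h : X ⊆ X') {b : Fin n → Bool} {r : Rec n}
    (hr : Wipes X b r) : Wipes X' b r := by
  obtain ⟨x, hx, h1⟩ := hr
  exact ⟨x, h hx, h1⟩

theorem psi_le_len {s m : ℕ} {Y : Finset (Fin n)} {L : List (Rec n)}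
    (h : ∀ r ∈ L, (Y \ r.W).card ≤ m) :
    Psi s Y L ≤ L.length * (2 : ℝ) ^ ((m : ℝ) / s) := by
  induction L with
  | nil => simp [Psi]
  | cons r L ih =>
    rw [psi_cons, List.length_cons]
    push_cast
    rw [add_mul, one_mul, add_comm]
    refine add_le_add (ih fun r hr => h r (List.mem_cons_of_mem _ hr)) ?_
    refine Real.rpow_le_rpow_of_exponent_le (by norm_num) ?_
    have : ((Y \ r.W).card : ℝ) ≤ m := by exact_mod_cast h r List.mem_cons_self
    gcongr

variable {A : Past n → Finset (Finset (Fin n)) × Finset (Fin n)} {c : ℕ → ℕ}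

/-- The records `L` can be wiped by a walk and by freezing `g` coordinates besides `Z`; the weight of the
new records and comparisons is at most `2 ^ ((|Z| + g) / s) * B`. -/
def Goal (A : Past n → Finset (Finset (Fin n)) × Finset (Fin n)) (c : ℕ → ℕ) (s : ℕ)
    (Y Z : Finset (Fin n)) (L : List (Rec n)) (h : Past n) (a : Fin n → Bool)
    (O : Finset (Fin n)) (g : ℕ) (B : ℝ) : Prop :=
  ∃ (q : List (Rec n)) (b : Fin n → Bool) (O' X : Finset (Fin n))
    (e : List (Rec n × (Fin n → Bool))),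
    Walk A c (Rel e) h a O q b O' ∧ ExtC Y a q e ∧ (∀ r ∈ q, r.S ⊆ Y \ Z) ∧
    (∀ r ∈ q, r.W ⊆ Y) ∧ (∀ z ∈ e, z.1.W ⊆ Y ∧ ∀ x, x ∉ Y → z.2 x = a x) ∧
    Psi s Y q + Psi s Y (e.map Prod.fst) ≤ (2 : ℝ) ^ (((Z.card + g : ℕ) : ℝ) / s) * B ∧
    X ⊆ Y ∧ Z ⊆ X ∧ X.card ≤ Z.card + g ∧
    (∀ r ∈ L, Wipes X b r) ∧ (∀ r ∈ q, Wipes X b r) ∧ ∀ z ∈ e, Wipes X b z.1

theorem Goal.mono {s : ℕ} {Y Z : Finset (Fin n)} {L : List (Rec n)} {h : Past n}
    {a : Fin n → Bool} {O : Finset (Fin n)} {g g' : ℕ} {B B' : ℝ}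
    (hG : Goal A c s Y Z L h a O g B) (hg : g ≤ g')
    (hB : 0 ≤ B) (hBB : B ≤ B') : Goal A c s Y Z L h a O g' B' := by
  obtain ⟨q, b, O', X, e, h1, h2, h3, h4, h4', h5, h6, h7, h8, h9, h10, h11⟩ := hG
  refine ⟨q, b, O', X, e, h1, h2, h3, h4, h4', h5.trans ?_, h6, h7, by omega, h9, h10, h11⟩
  refine mul_le_mul ?_ hBB hB (by positivity)
  refine Real.rpow_le_rpow_of_exponent_le (by norm_num) ?_
  have : ((Z.card + g : ℕ) : ℝ) ≤ ((Z.card + g' : ℕ) : ℝ) := by exact_mod_cast (by omega)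
  gcongr

theorem goal_nil (s : ℕ) {Y Z : Finset (Fin n)} (h : Past n) (a : Fin n → Bool)
    (O : Finset (Fin n)) (hZ : Z ⊆ Y) (g : ℕ) {B : ℝ} (hB : 0 ≤ B) :
    Goal A c s Y Z [] h a O g B := by
  refine ⟨[], a, O, Z, [], ⟨rfl, rfl⟩, extC_nil Y a, by simp, by simp, by simp, ?_, hZ,
    Subset.refl _, by simp, by simp, by simp, by simp⟩
  rw [List.map_nil, psi_nil, add_zero]
  positivity

/-- one step of the wiping phase -/
theorem goal_step {r : ℕ} (hA : Valid A r) {s θ ρ : ℕ} (hs : 1 ≤ s) (hθ : 1 ≤ θ)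
    (hρ : 2 * r + 1 ≤ ρ) {T : ℝ}
    (hT : T ≤ (2 : ℝ) ^ (θ : ℝ)) {lam t g : ℕ} {B : ℝ} (hB : 0 ≤ B)
    (ih : ∀ (Y Z : Finset (Fin n)) (L : List (Rec n)) (h : Past n) (a : Fin n → Bool)
      (O : Finset (Fin n)), O.card ≤ r →
      Z ⊆ Y → Psi s Y L ≤ T →
      L.length * (2 * dd θ lam + 1) ^ t < 2 ^ lam * (2 * dd θ lam + 2) ^ t →
      Z.card + 2 * s * θ + g < Y.card → Goal A c s Y Z L h a O g B)
    (Y Z : Finset (Fin n)) (L : List (Rec n)) (h : Past n) (a : Fin n → Bool)
    (O : Finset (Fin n)) (hO : O.card ≤ r)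
    (hZ : Z ⊆ Y) (hL : Psi s Y L ≤ T)
    (hc : L.length * (2 * dd θ lam + 1) ^ (t + 1) < 2 ^ lam * (2 * dd θ lam + 2) ^ (t + 1))
    (hY : Z.card + 2 * s * θ + (g + ρ) < Y.card) (hl : 2 ^ lam ≤ L.length) :
    Goal A c s Y Z L h a O (g + ρ) (B + (hh T lam + 4 ^ r)) := by
  classical
  have hT0 : 0 ≤ T := (psi_nonneg s Y L).trans hL
  have hh0 := hh_nonneg hT0 lam
  have hsR : (0 : ℝ) < s := by exact_mod_cast hs
  obtain ⟨k, hk⟩ : ∃ k, k = dd θ lam := ⟨_, rfl⟩
  have hex := exceptional' hs hθ hT hl hL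
  rw [← hk] at hc ih hex
  -- if a test wipes a large part of `L`, the rest is small enough
  have hstep : ∀ P : Rec n → Bool, L.length ≤ (2 * k + 2) * (L.filter P).length →
      (L.filter fun r => !P r).length * (2 * k + 1) ^ t < 2 ^ lam * (2 * k + 2) ^ t := by
    intro P hP
    have h1 := filter_card L P hP
    have h2 : (2 * k + 2) * (L.filter fun r => !P r).length ≤ (2 * k + 1) * L.length := by
      nlinarith
    have h3 : (2 * k + 2) * ((L.filter fun r => !P r).length * (2 * k + 1) ^ t)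
        < (2 * k + 2) * (2 ^ lam * (2 * k + 2) ^ t) := by
      calc (2 * k + 2) * ((L.filter fun r => !P r).length * (2 * k + 1) ^ t)
          = ((2 * k + 2) * (L.filter fun r => !P r).length) * (2 * k + 1) ^ t := by ring
        _ ≤ ((2 * k + 1) * L.length) * (2 * k + 1) ^ t := Nat.mul_le_mul_right _ h2
        _ = L.length * (2 * k + 1) ^ (t + 1) := by ring
        _ < 2 ^ lam * (2 * k + 2) ^ (t + 1) := hc
        _ = (2 * k + 2) * (2 ^ lam * (2 * k + 2) ^ t) := by ring
    exact lt_of_mul_lt_mul_left h3 (Nat.zero_le _)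
  by_cases hx : ∃ x ∈ Y, L.length ≤
      (2 * k + 2) * (L.filter fun r => decide (x ∈ r.W ∧ a x ≠ r.w x)).length
  · -- freeze `x` as it is
    obtain ⟨x, hxY, hx⟩ := hx
    have hZ' : insert x Z ⊆ Y := insert_subset hxY hZ
    have hZc : (insert x Z).card ≤ Z.card + 1 := card_insert_le _ _
    obtain ⟨q, b, O', X, e, h1, h2, h3, h4, h4', h5, h6, h7, h8, h9, h10, h11⟩ :=
      ih Y (insert x Z) (L.filter fun r => !decide (x ∈ r.W ∧ a x ≠ r.w x)) h a O hO hZ'
        ((psi_filter s Y L _).trans hL) (hstep _ hx) (by omega)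
    refine ⟨q, b, O', X, e, h1, h2, fun r hr => ?_, h4, h4', h5.trans ?_, h6,
      (subset_insert _ _).trans h7, by omega, fun r hr => ?_, h10, h11⟩
    · exact (h3 r hr).trans (sdiff_subset_sdiff (Subset.refl _) (subset_insert _ _))
    · have hp : (0 : ℝ) ≤ 4 ^ r := by positivity
      refine mul_le_mul ?_ (by linarith) hB (by positivity)
      refine Real.rpow_le_rpow_of_exponent_le (by norm_num) ?_
      have : (((insert x Z).card + g : ℕ) : ℝ) ≤ ((Z.card + (g + ρ) : ℕ) : ℝ) := by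
        exact_mod_cast (by omega)
      gcongr
    · by_cases hr' : x ∈ r.W ∧ a x ≠ r.w x
      · refine ⟨x, h7 (mem_insert_self _ _), hr'.1, ?_⟩
        rw [(walk_fix hA h1 h3).1 x (by simp)]
        exact hr'.2
      · exact h9 r (List.mem_filter.2 ⟨hr, by
          simp only [Bool.not_eq_true', decide_eq_false_iff_not]; exact hr'⟩)
  · -- let the rule move
    push Not at hx
    set E := Y.filter fun x => k * L.length < (k + 1) * L.countP (fun r => decide (x ∉ r.W))
      with hE
    obtain ⟨hEw, hEc⟩ := hex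
    set S := Y \ (E ∪ Z ∪ O) with hS
    have hEZO : (E ∪ Z ∪ O).card ≤ E.card + Z.card + r := by
      have h1 := card_union_le (E ∪ Z) O
      have h2 := card_union_le E Z
      omega
    have hSc : Y.card ≤ S.card + (E ∪ Z ∪ O).card := by
      have h1 := card_le_card_sdiff_add_card (s := Y) (t := E ∪ Z ∪ O)
      rwa [← hS] at h1
    have hSne : S.Nonempty := by
      rw [← card_pos]
      omega
    have hSY : S ⊆ Y := sdiff_subset
    have hSO : Disjoint S O := by
      rw [Finset.disjoint_left]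
      intro x hx hxO
      exact (mem_sdiff.1 hx).2 (mem_union_right _ hxO)
    have hSZ : ∀ x ∈ S, x ∉ Z := fun x hx hxZ =>
      (mem_sdiff.1 hx).2 (mem_union_left _ (mem_union_right _ hxZ))
    obtain ⟨T', hT', i, hiT, F, hFS, hiF, hFc, hcand, hnews⟩ :=
      one_move hA Y hSne h a (c h.length)
    have hval := hA a (c h.length) S h hSne
    have hTS : T' ⊆ S := (hval.2.2.2 T' hT').2
    have hiS : i ∈ S := hTS hiT
    have hiY : i ∈ Y := hSY hiS
    have hFY : F ⊆ Y := hFS.trans hSY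
    have hiE : i ∉ E := fun h' =>
      (mem_sdiff.1 hiS).2 (mem_union_left _ (mem_union_left _ h'))
    have hcount : L.length ≤
        (2 * k + 2) * (L.filter fun r => decide (i ∈ r.W ∧ TH70.AR.flip a i i ≠ r.w i)).length := by
      have h1 := count_three L a i
      have h2 := hx i hiY
      have h3 : (k + 1) * L.countP (fun r => decide (i ∉ r.W)) ≤ k * L.length := by
        by_contra h'
        exact hiE (by rw [hE, mem_filter]; exact ⟨hiY, by omega⟩)
      nlinarith
    have hYc : (Y \ F).card + F.card = Y.card := card_sdiff_add_card_eq_card hFY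
    set Dn := (A ((a, c h.length, S) :: h)).2 with hDn
    set 𝓕 := (A ((a, c h.length, S) :: h)).1 with h𝓕
    obtain ⟨b', hb'⟩ : ∃ b', b' = sw a T' := ⟨_, rfl⟩
    rw [← hb'] at hcand hnews
    obtain ⟨q, b, O', X, e, h1, h2, h3, h4, h4', h5, h6, h7, h8, h9, h10, h11⟩ :=
      ih (Y \ F) Z (L.filter fun r => !decide (i ∈ r.W ∧ TH70.AR.flip a i i ≠ r.w i))
        ((a, c h.length, S) :: h) b' Dn hval.2.2.1
        (fun z hz => mem_sdiff.2 ⟨hZ hz, fun hzF => hSZ z (hFS hzF) hz⟩)
        ((psi_filter s _ L _).trans ((psi_mono sdiff_subset L).trans hL))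
        (hstep _ hcount) (by omega)
    have hq' : ∀ r ∈ q, r.S ⊆ Y \ F := fun r hr => (h3 r hr).trans sdiff_subset
    have hfix := walk_fix hA h1 hq'
    have hbF : ∀ x ∈ F, b x = b' x := fun x hx => hfix.1 x fun h => (mem_sdiff.1 h).2 hx
    have hb'Y : ∀ x, x ∉ Y → b' x = a x := fun x hx => by
      rw [hb']; exact sw_not_mem fun h => hx (hSY (hTS h))
    have hb'i : b' i ≠ a i := by rw [hb', sw_mem hiT]; simp
    have hfl : TH70.AR.flip a i i = b' i := by rw [hb', sw_mem hiT, flip_self]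
    set R₀ : Rec n := cl F b' ⟨a, S, S⟩ with hR₀
    have hR₀S : R₀.S = S := rfl
    have hR₀w : R₀.w = a := rfl
    have hR₀W : ∀ x, x ∈ R₀.W ↔ x ∈ S ∧ ¬ (x ∈ F ∧ b' x = a x) := fun x => by
      rw [hR₀, cl, mem_filter]
    set N := news Y F a 𝓕 Dn b' with hN
    refine ⟨R₀ :: q, b, O', F ∪ X, e ++ N, ?_, ?_, ?_, ?_, ?_, ?_, ?_, ?_, ?_, ?_, ?_, ?_⟩
    · refine ⟨hR₀w, hSne, hSO, T', hT', fun y hy => ?_, ?_⟩
      · rw [← hb']
        exact (hcand y hy).imp id (rel_append_right y b')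
      · rw [← hb']
        exact walk_mono h1 rel_append_left
    · have := ext_comp (X := F) (b := b') (e := []) (e' := e) (ex := N)
        (extC_of_ext (ext_single Y a S) a) (by
          intro r hr
          rw [List.mem_singleton] at hr
          subst hr
          exact ⟨i, hiF, hiS, hb'i⟩) (by simp) h2 hb'Y hq' h4 (by
          intro r hr x hx
          exact hfix.2 r hr x fun h => (mem_sdiff.1 h).2 hx) (fun z hz => (h4' z hz).1) (by
          intro z hz x hx
          exact (h4' z hz).2 x fun h => (mem_sdiff.1 h).2 hx) (by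
          intro z hz hOn
          obtain ⟨x, hx, hne⟩ := (hnews z hz).2.2.2.1
          exact hne (hOn x hx).symm) (by
          intro z hz
          rw [(hnews z hz).1]
          exact fun _ _ => rfl) (fun z hz => (hnews z hz).2.2.2.2.2)
      simpa using this
    · intro r hr
      rcases List.mem_cons.1 hr with rfl | hr
      · intro x hx
        exact mem_sdiff.2 ⟨hSY hx, hSZ x hx⟩
      · exact (h3 r hr).trans (sdiff_subset_sdiff sdiff_subset (Subset.refl _))
    · intro r hr
      rcases List.mem_cons.1 hr with rfl | hr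
      · intro x hx
        exact hSY ((hR₀W x).1 hx).1
      · exact (h4 r hr).trans sdiff_subset
    · intro z hz
      rcases List.mem_append.1 hz with hz | hz
      · refine ⟨(h4' z hz).1.trans sdiff_subset, fun x hx => ?_⟩
        rw [(h4' z hz).2 x fun h => hx (mem_sdiff.1 h).1]
        exact hb'Y x hx
      · refine ⟨(hnews z hz).2.1, fun x hx => ?_⟩
        rw [(hnews z hz).1]
        exact hb'Y x hx
    · -- the weight
      rw [psi_cons, List.map_append, psi_append]
      have hFρ : F.card ≤ ρ := by omega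
      have g1 : Y \ R₀.W ⊆ (E ∪ Z ∪ O) ∪ F.erase i := by
        intro x hx
        rw [mem_sdiff, hR₀W] at hx
        rw [mem_union]
        by_cases hxS : x ∈ S
        · right
          have h1 : x ∈ F ∧ b' x = a x := by
            by_contra h'
            exact hx.2 ⟨hxS, h'⟩
          exact mem_erase.2 ⟨by rintro rfl; exact hb'i h1.2, h1.1⟩
        · left
          by_contra h'
          exact hxS (mem_sdiff.2 ⟨hx.1, h'⟩)
      have g2 : ((Y \ R₀.W).card : ℝ) ≤ ((Z.card + (g + ρ) : ℕ) : ℝ) + E.card := by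
        have h12 := card_le_card g1
        have h13 := card_union_le (E ∪ Z ∪ O) (F.erase i)
        have h14 := card_erase_of_mem hiF
        exact_mod_cast (by omega : (Y \ R₀.W).card ≤ Z.card + (g + ρ) + E.card)
      have g3 : (2 : ℝ) ^ (((Y \ R₀.W).card : ℝ) / s) ≤
          (2 : ℝ) ^ (((Z.card + (g + ρ) : ℕ) : ℝ) / s) * hh T lam := by
        calc (2 : ℝ) ^ (((Y \ R₀.W).card : ℝ) / s) ≤
              2 ^ (((Z.card + (g + ρ) : ℕ) : ℝ) / s + ((E.card : ℝ)) / s) := by
              refine Real.rpow_le_rpow_of_exponent_le (by norm_num) ?_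
              rw [← add_div]
              gcongr
          _ = 2 ^ (((Z.card + (g + ρ) : ℕ) : ℝ) / s) * 2 ^ (((E.card : ℝ)) / s) := by
              rw [Real.rpow_add (by norm_num)]
          _ ≤ _ := mul_le_mul_of_nonneg_left hEw (by positivity)
      have g4 : ∀ M : List (Rec n), Psi s Y M ≤ (2 : ℝ) ^ ((ρ : ℝ) / s) * Psi s (Y \ F) M := by
        intro M
        have := psi_le_of (s := s) (e := ρ) (Y := Y \ F) (Y' := Y) id M fun r _ => by
          have h11 : Y \ r.W ⊆ F ∪ ((Y \ F) \ r.W) := by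
            intro x hx
            rw [mem_sdiff] at hx
            rw [mem_union, mem_sdiff, mem_sdiff]
            by_cases hxi : x ∈ F
            · exact Or.inl hxi
            · exact Or.inr ⟨⟨hx.1, hxi⟩, hx.2⟩
          have h12 := card_le_card h11
          have h13 := card_union_le F ((Y \ F) \ r.W)
          simp only [id]
          omega
        simpa using this
      have g5 : Psi s Y q + Psi s Y (e.map Prod.fst) ≤
          (2 : ℝ) ^ (((Z.card + (g + ρ) : ℕ) : ℝ) / s) * B := by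
        calc Psi s Y q + Psi s Y (e.map Prod.fst) ≤ (2 : ℝ) ^ ((ρ : ℝ) / s) *
              (Psi s (Y \ F) q + Psi s (Y \ F) (e.map Prod.fst)) := by
              rw [mul_add]
              exact add_le_add (g4 q) (g4 _)
          _ ≤ (2 : ℝ) ^ ((ρ : ℝ) / s) * ((2 : ℝ) ^ (((Z.card + g : ℕ) : ℝ) / s) * B) :=
              mul_le_mul_of_nonneg_left h5 (by positivity)
          _ = (2 : ℝ) ^ (((Z.card + (g + ρ) : ℕ) : ℝ) / s) * B := by
              rw [← mul_assoc, ← Real.rpow_add (by norm_num)]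
              congr 2
              push_cast
              ring
      have g6 : Psi s Y (N.map Prod.fst) ≤
          (2 : ℝ) ^ (((Z.card + (g + ρ) : ℕ) : ℝ) / s) * 4 ^ r := by
        have h1 : Psi s Y (N.map Prod.fst) ≤
            (N.map Prod.fst).length * (2 : ℝ) ^ (((Z.card + (g + ρ) : ℕ) : ℝ) / s) := by
          apply psi_le_len
          intro x hx
          obtain ⟨z, hz, rfl⟩ := List.mem_map.1 hx
          have := (hnews z hz).2.2.1
          omega
        have h2 : ((N.map Prod.fst).length : ℝ) ≤ 4 ^ r := by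
          rw [List.length_map]
          exact_mod_cast news_length hval.2.1 hval.2.2.1
        refine h1.trans ?_
        rw [mul_comm]
        exact mul_le_mul_of_nonneg_left h2 (by positivity)
      have g7 : (2 : ℝ) ^ (((Z.card + (g + ρ) : ℕ) : ℝ) / s) * (B + (hh T lam + 4 ^ r)) =
          (2 : ℝ) ^ (((Z.card + (g + ρ) : ℕ) : ℝ) / s) * hh T lam +
          (2 : ℝ) ^ (((Z.card + (g + ρ) : ℕ) : ℝ) / s) * B +
          (2 : ℝ) ^ (((Z.card + (g + ρ) : ℕ) : ℝ) / s) * 4 ^ r := by ring
      rw [g7]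
      linarith
    · exact union_subset hFY (h6.trans sdiff_subset)
    · exact h7.trans subset_union_right
    · have := card_union_le F X
      omega
    · intro r hr
      by_cases hr' : i ∈ r.W ∧ TH70.AR.flip a i i ≠ r.w i
      · refine ⟨i, mem_union_left _ hiF, hr'.1, ?_⟩
        rw [hbF i hiF, ← hfl]
        exact hr'.2
      · exact wipes_mono subset_union_right (h9 r (List.mem_filter.2 ⟨hr, by
          simp only [Bool.not_eq_true', decide_eq_false_iff_not]; exact hr'⟩))
    · intro r hr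
      rcases List.mem_cons.1 hr with rfl | hr
      · refine ⟨i, mem_union_left _ hiF, (hR₀W i).2 ⟨hiS, fun h => hb'i h.2⟩, ?_⟩
        rw [hbF i hiF]
        exact hb'i
      · exact wipes_mono subset_union_right (h10 r hr)
    · intro z hz
      rcases List.mem_append.1 hz with hz | hz
      · exact wipes_mono subset_union_right (h11 z hz)
      · obtain ⟨x, hx, hne⟩ := (hnews z hz).2.2.2.1
        refine ⟨x, mem_union_left _ hx, (hnews z hz).2.2.2.2.1 x (hFY hx) hne, ?_⟩
        rw [hbF x hx]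
        exact hne

/-- **The wiping phase.** -/
theorem wipe {r : ℕ} (hA : Valid A r) {s θ ρ : ℕ} (hs : 1 ≤ s) (hθ : 1 ≤ θ)
    (hρ : 2 * r + 1 ≤ ρ) {T : ℝ} (hT0 : 0 ≤ T)
    (hT : T ≤ (2 : ℝ) ^ (θ : ℝ)) (lam : ℕ) :
    ∀ (t : ℕ) (Y Z : Finset (Fin n)) (L : List (Rec n)) (h : Past n) (a : Fin n → Bool)
      (O : Finset (Fin n)), O.card ≤ r →
      Z ⊆ Y → Psi s Y L ≤ T →
      L.length * (2 * dd θ lam + 1) ^ t < 2 ^ lam * (2 * dd θ lam + 2) ^ t →
      Z.card + 2 * s * θ + (t * ρ + G θ lam * ρ) < Y.card →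
      Goal A c s Y Z L h a O (t * ρ + G θ lam * ρ)
        (t * (hh T lam + 4 ^ r) + (HH θ T lam + G θ lam * 4 ^ r)) := by
  have hp : (0 : ℝ) ≤ 4 ^ r := by positivity
  -- the case of few records
  have key : ∀ (lam : ℕ), (∀ (t : ℕ) (Y Z : Finset (Fin n)) (L : List (Rec n)) (h : Past n)
      (a : Fin n → Bool) (O : Finset (Fin n)), O.card ≤ r → Z ⊆ Y → Psi s Y L ≤ T →
      L.length < 2 ^ lam →
      Z.card + 2 * s * θ + (t * ρ + G θ lam * ρ) < Y.card →
      Goal A c s Y Z L h a O (t * ρ + G θ lam * ρ)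
        (t * (hh T lam + 4 ^ r) + (HH θ T lam + G θ lam * 4 ^ r))) →
      ∀ (t : ℕ) (Y Z : Finset (Fin n)) (L : List (Rec n)) (h : Past n) (a : Fin n → Bool)
      (O : Finset (Fin n)), O.card ≤ r →
      Z ⊆ Y → Psi s Y L ≤ T →
      L.length * (2 * dd θ lam + 1) ^ t < 2 ^ lam * (2 * dd θ lam + 2) ^ t →
      Z.card + 2 * s * θ + (t * ρ + G θ lam * ρ) < Y.card →
      Goal A c s Y Z L h a O (t * ρ + G θ lam * ρ)
        (t * (hh T lam + 4 ^ r) + (HH θ T lam + G θ lam * 4 ^ r)) := by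
    intro lam hlow t
    induction t with
    | zero =>
      intro Y Z L h a O hO hZ hL hc hY
      exact hlow 0 Y Z L h a O hO hZ hL (by simpa using hc) hY
    | succ t ih =>
      intro Y Z L h a O hO hZ hL hc hY
      by_cases hl : 2 ^ lam ≤ L.length
      · have hB : 0 ≤ t * (hh T lam + 4 ^ r) + (HH θ T lam + G θ lam * 4 ^ r) := by
          have := hh_nonneg hT0 lam
          have := HH_nonneg θ hT0 lam
          positivity
        have h1 : (t + 1) * ρ + G θ lam * ρ = t * ρ + G θ lam * ρ + ρ := by ring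
        rw [h1] at hY ⊢
        refine (goal_step hA hs hθ hρ hT hB ih Y Z L h a O hO hZ hL hc hY hl).mono le_rfl
          ?_ ?_
        · have := hh_nonneg hT0 lam
          linarith
        · push_cast
          linarith
      · exact hlow (t + 1) Y Z L h a O hO hZ hL (by omega) hY
  induction lam with
  | zero =>
    refine key 0 ?_
    intro t Y Z L h a O hO hZ hL hc hY
    have hL0 : L = [] := by
      rw [← List.length_eq_zero_iff]
      simpa using hc
    subst hL0
    refine goal_nil s h a O hZ _ ?_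
    have := hh_nonneg hT0 0
    have := HH_nonneg θ hT0 0
    positivity
  | succ lam ihl =>
    refine key (lam + 1) ?_
    intro t Y Z L h a O hO hZ hL hc hY
    have h0 := two_pow_mul_le (dd θ lam) 1
    rw [mul_one, pow_one] at h0
    have h1 : L.length * (2 * dd θ lam + 1) ^ (2 * dd θ lam + 1) <
        2 ^ lam * (2 * dd θ lam + 2) ^ (2 * dd θ lam + 1) := by
      calc L.length * (2 * dd θ lam + 1) ^ (2 * dd θ lam + 1)
          < 2 ^ (lam + 1) * (2 * dd θ lam + 1) ^ (2 * dd θ lam + 1) :=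
            Nat.mul_lt_mul_of_pos_right hc (by positivity)
        _ = 2 ^ lam * (2 * (2 * dd θ lam + 1) ^ (2 * dd θ lam + 1)) := by ring
        _ ≤ _ := Nat.mul_le_mul_left _ h0
    have hg : G θ (lam + 1) = G θ lam + (2 * dd θ lam + 1) := rfl
    have hH : HH θ T (lam + 1) = HH θ T lam + (2 * dd θ lam + 1 : ℕ) * hh T lam := rfl
    have hg' : G θ (lam + 1) * ρ = G θ lam * ρ + (2 * dd θ lam + 1) * ρ := by rw [hg]; ring
    have hgt : (0 : ℕ) ≤ t * ρ := Nat.zero_le _
    refine (ihl (2 * dd θ lam + 1) Y Z L h a O hO hZ hL h1 (by omega)).mono (by omega) ?_ ?_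
    · have := hh_nonneg hT0 lam
      have := HH_nonneg θ hT0 lam
      positivity
    · rw [hH, hg]
      have := hh_nonneg hT0 (lam + 1)
      have h3 : (0 : ℝ) ≤ t * (hh T (lam + 1) + 4 ^ r) := by positivity
      push_cast
      nlinarith

end Pool.Agent.J4.H61.LN
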